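import Mathlib

/-!
Infinite binary words: factors, special factors, Morse-Hedlund.
-/

namespace Pool.Agent.H57.RW

open Set

/-- The factor of length `n` of the infinite word `x` at position `i`. -/
def fac (x : ℕ → ZMod 2) (i n : ℕ) : List (ZMod 2) := (List.range n).map (fun t => x (i + t))

/-- The set of factors of length `n` of the infinite word `x`. -/
def lang (x : ℕ → ZMod 2) (n : ℕ) : Set (List (ZMod 2)) := {w | ∃ i, w = fac x i n}

/-- Factor complexity. -/
noncomputable def cpx (x : ℕ → ZMod 2) (n : ℕ) : ℕ := (lang x n).ncard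

@[simp] lemma fac_length (x : ℕ → ZMod 2) (i n : ℕ) : (fac x i n).length = n := by
  simp [fac]

@[simp] lemma fac_getElem (x : ℕ → ZMod 2) (i n t : ℕ) (h : t < (fac x i n).length) :
    (fac x i n)[t] = x (i + t) := by
  simp [fac]

lemma fac_eq_iff {x y : ℕ → ZMod 2} {i j n : ℕ} :
    fac x i n = fac y j n ↔ ∀ t < n, x (i + t) = y (j + t) := by
  constructor
  · intro h t ht
    have h1 : (fac x i n)[t]'(by simpa using ht) = (fac y j n)[t]'(by simpa using ht) := by
      simp only [h]
    simpa using h1
  · intro h
    apply List.ext_getElem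
    · simp
    · intro t h1 h2
      simp only [fac_getElem]
      exact h t (by simpa using h1)

lemma fac_eq_reverse_iff {x y : ℕ → ZMod 2} {i j n : ℕ} :
    fac x j n = (fac y i n).reverse ↔ ∀ t < n, x (j + t) = y (i + (n - 1 - t)) := by
  constructor
  · intro h t ht
    have h1 : (fac x j n)[t]'(by simpa using ht) =
        ((fac y i n).reverse)[t]'(by simpa using ht) := by
      simp only [h]
    rw [fac_getElem, List.getElem_reverse, fac_getElem] at h1
    simpa using h1
  · intro h
    apply List.ext_getElem
    · simp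
    · intro t h1 h2
      rw [fac_getElem, List.getElem_reverse, fac_getElem]
      rw [h t (by simpa using h1)]
      simp

lemma fac_succ (x : ℕ → ZMod 2) (i n : ℕ) : fac x i (n + 1) = fac x i n ++ [x (i + n)] := by
  simp [fac, List.range_succ]

lemma fac_cons (x : ℕ → ZMod 2) (i n : ℕ) : fac x i (n + 1) = x i :: fac x (i + 1) n := by
  apply List.ext_getElem
  · simp
  · intro t h1 h2
    rw [fac_getElem]
    rcases t with _ | t
    · simp
    · simp only [List.getElem_cons_succ, fac_getElem]
      congr 1
      omega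

lemma mem_lang_fac (x : ℕ → ZMod 2) (i n : ℕ) : fac x i n ∈ lang x n := ⟨i, rfl⟩

lemma lang_finite (x : ℕ → ZMod 2) (n : ℕ) : (lang x n).Finite := by
  apply Set.Finite.subset (List.finite_length_eq (ZMod 2) n)
  rintro w ⟨i, rfl⟩
  simp

/-- The window at position `i` of length `n` is right special. -/
def RS (x : ℕ → ZMod 2) (n i : ℕ) : Prop :=
  ∃ j, (∀ t < n, x (i + t) = x (j + t)) ∧ x (i + n) ≠ x (j + n)

lemma RS.congr {x : ℕ → ZMod 2} {n i j : ℕ} (h : RS x n i)
    (hij : ∀ t < n, x (i + t) = x (j + t)) : RS x n j := by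
  obtain ⟨k, hk, hne⟩ := h
  by_cases h1 : x (j + n) = x (i + n)
  · exact ⟨k, fun t ht => (hij t ht).symm.trans (hk t ht), by rw [h1]; exact hne⟩
  · exact ⟨i, fun t ht => (hij t ht).symm, h1⟩

lemma zmod2_cases (a : ZMod 2) : a = 0 ∨ a = 1 := by
  revert a; decide

/-- `x` is eventually periodic. -/
def EP (x : ℕ → ZMod 2) : Prop := ∃ i j, i < j ∧ ∀ t, x (i + t) = x (j + t)

/-- A window repeated without right special windows in between forces periodicity. -/
lemma trap {x : ℕ → ZMod 2} {n p d : ℕ} (hd : 0 < d) (h : ∀ t < n, x (p + t) = x (p + d + t))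
    (hns : ∀ τ < d, ¬ RS x n (p + τ)) : ∀ t, x (p + t) = x (p + d + t) := by
  have key : ∀ τ, (∀ t < n, x (p + τ + t) = x (p + d + τ + t)) ∧ ¬ RS x n (p + τ) := by
    intro τ
    induction τ using Nat.strong_induction_on with
    | _ τ ih =>
      have h1 : ∀ t < n, x (p + τ + t) = x (p + d + τ + t) := by
        rcases τ with _ | τ
        · simpa using h
        · obtain ⟨h2, h3⟩ := ih τ (by omega)
          intro t ht
          by_cases htn : t + 1 < n
          · have := h2 (t + 1) htn
            rw [show p + (τ + 1) + t = p + τ + (t + 1) by omega,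
              show p + d + (τ + 1) + t = p + d + τ + (t + 1) by omega]
            exact this
          · have htn' : t + 1 = n := by omega
            by_contra hne
            apply h3
            refine ⟨p + d + τ, h2, ?_⟩
            rw [show p + τ + n = p + (τ + 1) + t by omega,
              show p + d + τ + n = p + d + (τ + 1) + t by omega]
            exact hne
      refine ⟨h1, ?_⟩
      by_cases hτ : τ < d
      · exact hns τ hτ
      · obtain ⟨h2, h3⟩ := ih (τ - d) (by omega)
        intro hrs
        apply h3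
        apply hrs.congr
        intro t ht
        have := h2 t ht
        rw [show p + d + (τ - d) + t = p + τ + t by omega] at this
        exact this.symm
  intro t
  by_cases ht : t < n
  · exact h t ht
  · obtain ⟨h2, h3⟩ := key (t - n)
    by_contra hne
    apply h3
    refine ⟨p + d + (t - n), h2, ?_⟩
    rw [show p + (t - n) + n = p + t by omega, show p + d + (t - n) + n = p + d + t by omega]
    exact hne

lemma EP_of_no_RS {x : ℕ → ZMod 2} {n i : ℕ} (h : ∀ j, i ≤ j → ¬ RS x n j) : EP x := by
  have hfin : Finite (lang x n) := (lang_finite x n).to_subtype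
  obtain ⟨a, b, hab, heq⟩ := Finite.exists_ne_map_eq_of_infinite
    (fun j : ℕ => (⟨fac x (i + j) n, mem_lang_fac x _ _⟩ : lang x n))
  have heq' : fac x (i + a) n = fac x (i + b) n := congrArg Subtype.val heq
  rw [fac_eq_iff] at heq'
  rcases lt_or_gt_of_ne hab with h1 | h1
  · refine ⟨i + a, i + b, by omega, ?_⟩
    have := trap (x := x) (n := n) (p := i + a) (d := b - a) (by omega)
      (by intro t ht; rw [show i + a + (b - a) = i + b by omega]; exact heq' t ht)
      (fun τ _ => h _ (by omega))
    intro t
    rw [this t, show i + a + (b - a) = i + b by omega]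
  · refine ⟨i + b, i + a, by omega, ?_⟩
    have := trap (x := x) (n := n) (p := i + b) (d := a - b) (by omega)
      (by intro t ht; rw [show i + b + (a - b) = i + a by omega]; exact (heq' t ht).symm)
      (fun τ _ => h _ (by omega))
    intro t
    rw [this t, show i + b + (a - b) = i + a by omega]

/-- The set of right special factors of length `n`. -/
def rsSet (x : ℕ → ZMod 2) (n : ℕ) : Set (List (ZMod 2)) := {w | ∃ i, w = fac x i n ∧ RS x n i}

lemma rsSet_subset (x : ℕ → ZMod 2) (n : ℕ) : rsSet x n ⊆ lang x n := by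
  rintro w ⟨i, rfl, _⟩
  exact mem_lang_fac x i n

/-- `C(n+1) = C(n) + ` number of right special factors of length `n`. -/
lemma cpx_succ (x : ℕ → ZMod 2) (n : ℕ) : cpx x (n + 1) = cpx x n + (rsSet x n).ncard := by
  classical
  set A : ZMod 2 → Set (List (ZMod 2)) := fun c => {w | w ++ [c] ∈ lang x (n + 1)} with hA
  have hAfin : ∀ c, (A c).Finite := by
    intro c
    apply Set.Finite.subset (List.finite_length_eq (ZMod 2) n)
    rintro w ⟨i, hi⟩
    have := congrArg List.length hi
    simpa using this
  have hunion : A 0 ∪ A 1 = lang x n := by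
    ext w
    constructor
    · intro h
      have : ∃ c, w ++ [c] ∈ lang x (n + 1) := by
        rcases h with h | h
        · exact ⟨0, h⟩
        · exact ⟨1, h⟩
      obtain ⟨c, i, hi⟩ := this
      rw [fac_succ] at hi
      have := List.append_inj' hi (by simp)
      exact ⟨i, this.1⟩
    · rintro ⟨i, rfl⟩
      rcases zmod2_cases (x (i + n)) with h | h
      · left
        exact ⟨i, by rw [fac_succ, h]⟩
      · right
        exact ⟨i, by rw [fac_succ, h]⟩
  have hinter : A 0 ∩ A 1 = rsSet x n := by
    ext w
    constructor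
    · rintro ⟨⟨i, hi⟩, ⟨j, hj⟩⟩
      rw [fac_succ] at hi hj
      have h1 := List.append_inj' hi (by simp)
      have h2 := List.append_inj' hj (by simp)
      refine ⟨i, h1.1, j, ?_, ?_⟩
      · rw [← fac_eq_iff, ← h1.1, ← h2.1]
      · have h3 : x (i + n) = 0 := by simpa using h1.2.symm
        have h4 : x (j + n) = 1 := by simpa using h2.2.symm
        rw [h3, h4]
        decide
    · rintro ⟨i, rfl, j, hj, hne⟩
      have hij : fac x i n = fac x j n := fac_eq_iff.mpr hj
      rcases zmod2_cases (x (i + n)) with h | h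
      · rcases zmod2_cases (x (j + n)) with h' | h'
        · exact absurd (h.trans h'.symm) hne
        · exact ⟨⟨i, by rw [fac_succ, h]⟩, ⟨j, by rw [fac_succ, h', hij]⟩⟩
      · rcases zmod2_cases (x (j + n)) with h' | h'
        · exact ⟨⟨j, by rw [fac_succ, h', hij]⟩, ⟨i, by rw [fac_succ, h]⟩⟩
        · exact absurd (h.trans h'.symm) hne
  have hlang : lang x (n + 1) = ((fun w => w ++ [(0 : ZMod 2)]) '' A 0) ∪
      ((fun w => w ++ [(1 : ZMod 2)]) '' A 1) := by
    ext w
    constructor
    · rintro ⟨i, rfl⟩
      rcases zmod2_cases (x (i + n)) with h | h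
      · left
        exact ⟨fac x i n, ⟨i, by rw [fac_succ, h]⟩, by simp only [fac_succ, h]⟩
      · right
        exact ⟨fac x i n, ⟨i, by rw [fac_succ, h]⟩, by simp only [fac_succ, h]⟩
    · rintro (⟨v, hv, rfl⟩ | ⟨v, hv, rfl⟩)
      · exact hv
      · exact hv
  have hdisj : Disjoint ((fun w => w ++ [(0 : ZMod 2)]) '' A 0)
      ((fun w => w ++ [(1 : ZMod 2)]) '' A 1) := by
    rw [Set.disjoint_left]
    rintro _ ⟨v, _, rfl⟩ ⟨v', _, h⟩
    have h' : v' ++ [(1 : ZMod 2)] = v ++ [0] := h
    have := List.append_inj' h' (by simp)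
    simp at this
  have hinj : ∀ c : ZMod 2, Function.Injective (fun w : List (ZMod 2) => w ++ [c]) := by
    intro c a b h
    exact (List.append_left_inj [c]).mp h
  unfold cpx
  rw [hlang, Set.ncard_union_eq hdisj ((hAfin 0).image _) ((hAfin 1).image _),
    Set.ncard_image_of_injective _ (hinj 0), Set.ncard_image_of_injective _ (hinj 1),
    ← hunion, ← hinter, Set.ncard_union_add_ncard_inter _ _ (hAfin 0) (hAfin 1)]

lemma cpx_zero (x : ℕ → ZMod 2) : cpx x 0 = 1 := by
  unfold cpx
  have : lang x 0 = {[]} := by
    ext w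
    simp [lang, fac]
  rw [this, Set.ncard_singleton]

/-- Morse-Hedlund. -/
lemma le_cpx_of_not_EP {x : ℕ → ZMod 2} (h : ¬ EP x) (n : ℕ) : n + 1 ≤ cpx x n := by
  induction n with
  | zero => rw [cpx_zero]
  | succ n ih =>
    rw [cpx_succ]
    have : 0 < (rsSet x n).ncard := by
      rw [Set.ncard_pos ((lang_finite x n).subset (rsSet_subset x n))]
      by_contra hne
      apply h
      apply EP_of_no_RS (n := n) (i := 0)
      intro j _ hj
      exact hne ⟨fac x j n, j, rfl, hj⟩
    omega

end Pool.Agent.H57.RW
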