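import Mathlib
import Pool.Agent.H57.RW.Basic

/-!
Sturmian words: recurrence, closure under reversal, palindromes.
-/

namespace Pool.Agent.H57.RW

open Set

/-- Sturmian words: exactly `n + 1` factors of each length `n`. -/
def Sturmian (u : ℕ → ZMod 2) : Prop := ∀ n, cpx u n = n + 1

variable {u : ℕ → ZMod 2}

lemma cpx_le_of_EP {x : ℕ → ZMod 2} {i j : ℕ} (hij : i < j) (h : ∀ t, x (i + t) = x (j + t))
    (n : ℕ) : cpx x n ≤ j := by
  classical
  have hsub : lang x n ⊆ ((Finset.range j).image (fun k => fac x k n) : Finset (List (ZMod 2))) := by
    rintro w ⟨k, rfl⟩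
    rw [Finset.coe_image]
    induction k using Nat.strong_induction_on with
    | _ k ih =>
      by_cases hk : k < j
      · exact ⟨k, by simpa using hk, rfl⟩
      · obtain ⟨m, hm, hm'⟩ := ih (k - (j - i)) (by omega)
        refine ⟨m, hm, ?_⟩
        rw [hm', fac_eq_iff]
        intro t _
        have := h (k - j + t)
        rw [show i + (k - j + t) = k - (j - i) + t by omega,
          show j + (k - j + t) = k + t by omega] at this
        exact this
  calc cpx x n ≤ ((Finset.range j).image (fun k => fac x k n)).card := by
        unfold cpx
        rw [← Set.ncard_coe_finset]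
        exact Set.ncard_le_ncard hsub (Finset.finite_toSet _)
    _ ≤ (Finset.range j).card := Finset.card_image_le
    _ = j := Finset.card_range j

lemma Sturmian.not_EP (hu : Sturmian u) : ¬ EP u := by
  rintro ⟨i, j, hij, h⟩
  have := cpx_le_of_EP hij h j
  rw [hu j] at this
  omega

/-- every factor of a Sturmian word occurs at arbitrarily late positions -/
lemma Sturmian.recur (hu : Sturmian u) (i n m : ℕ) : ∃ j, m ≤ j ∧ ∀ t < n, u (i + t) = u (j + t) := by
  set x : ℕ → ZMod 2 := fun t => u (m + t) with hx
  have hne : ¬ EP x := by
    rintro ⟨a, b, hab, h⟩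
    exact hu.not_EP ⟨m + a, m + b, by omega, fun t => by
      have := h t
      simp only [hx] at this
      rw [add_assoc, add_assoc]
      exact this⟩
  have hsub : lang x n ⊆ lang u n := by
    rintro w ⟨k, rfl⟩
    refine ⟨m + k, ?_⟩
    rw [fac_eq_iff]
    intro t _
    simp only [hx]
    congr 1
    omega
  have heq : lang x n = lang u n := by
    apply Set.eq_of_subset_of_ncard_le hsub _ (lang_finite u n)
    have h1 := le_cpx_of_not_EP hne n
    have h2 := hu n
    unfold cpx at h1 h2
    omega
  have hmem : fac u i n ∈ lang x n := by
    rw [heq]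
    exact mem_lang_fac u i n
  obtain ⟨k, hk⟩ := hmem
  rw [fac_eq_iff] at hk
  refine ⟨m + k, by omega, fun t ht => ?_⟩
  rw [hk t ht]
  simp only [hx]
  congr 1
  omega

lemma Sturmian.rs_ncard (hu : Sturmian u) (n : ℕ) : (rsSet u n).ncard = 1 := by
  have := cpx_succ u n
  rw [hu, hu] at this
  omega

lemma Sturmian.rs_exists (hu : Sturmian u) (n : ℕ) : ∃ i, RS u n i := by
  obtain ⟨w, hw⟩ := Set.ncard_eq_one.mp (hu.rs_ncard n)
  have : w ∈ rsSet u n := by rw [hw]; rfl
  obtain ⟨i, _, hi⟩ := this
  exact ⟨i, hi⟩

lemma Sturmian.rs_unique (hu : Sturmian u) {n i j : ℕ} (hi : RS u n i) (hj : RS u n j) :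
    ∀ t < n, u (i + t) = u (j + t) := by
  obtain ⟨w, hw⟩ := Set.ncard_eq_one.mp (hu.rs_ncard n)
  have h1 : fac u i n ∈ rsSet u n := ⟨i, rfl, hi⟩
  have h2 : fac u j n ∈ rsSet u n := ⟨j, rfl, hj⟩
  rw [hw] at h1 h2
  rw [← fac_eq_iff]
  exact h1.trans h2.symm

/-- left special at position `i + 1` -/
def LS (x : ℕ → ZMod 2) (n i : ℕ) : Prop :=
  ∃ j, (∀ t < n, x (i + 1 + t) = x (j + 1 + t)) ∧ x i ≠ x j

/-- closure under reversal for factors of length `n` -/
def RC (x : ℕ → ZMod 2) (n : ℕ) : Prop := ∀ i, ∃ j, ∀ t < n, x (j + t) = x (i + (n - 1 - t))

lemma RC_of_succ {x : ℕ → ZMod 2} {n : ℕ} (h : RC x (n + 1)) : RC x n := by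
  intro i
  obtain ⟨j, hj⟩ := h i
  refine ⟨j + 1, fun t ht => ?_⟩
  have := hj (t + 1) (by omega)
  rw [show j + 1 + t = j + (t + 1) by omega, this]
  congr 1
  omega

/-- If `b w b` and `b' w b'` are factors with `w` a palindrome, `b ≠ b'` and `bw` right special,
then we get a contradiction. -/
lemma Sturmian.balanced_aux (hu : Sturmian u) {n i k : ℕ} (hpal : ∀ t < n, u (k + 1 + t) = u (k + n - t))
    (hrs : RS u (n + 1) i) (hw : ∀ t < n, u (i + 1 + t) = u (k + 1 + t)) (hne : u i ≠ u k)
    (hend : u (k + n + 1) = u k) : False := by
  classical
  have hns : ∀ s ≤ n + 1, ¬ RS u (n + 1) (k + s) := by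
    intro s hs hrs'
    have h := hu.rs_unique hrs hrs'
    rcases Nat.eq_zero_or_pos s with rfl | hs0
    · exact hne (by simpa using h 0 (by omega))
    · rcases Nat.lt_or_ge n s with h1 | h1
      · have hs' : s = n + 1 := by omega
        subst hs'
        have := h 0 (by omega)
        simp only [add_zero] at this
        rw [show k + (n + 1) = k + n + 1 by omega, hend] at this
        exact hne this
      · -- `1 ≤ s ≤ n`
        have h2 := h 0 (by omega)
        simp only [add_zero] at h2
        have h3 := h (n + 1 - s) (by omega)
        rw [show k + s + (n + 1 - s) = k + n + 1 by omega, hend,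
          show i + (n + 1 - s) = i + 1 + (n - s) by omega, hw (n - s) (by omega)] at h3
        have h4 := hpal (n - s) (by omega)
        rw [h3, show k + n - (n - s) = k + s by omega, ← h2] at h4
        exact hne h4.symm
  -- pigeonhole
  set z := fac u i (n + 1) with hz
  have hcard : (lang u (n + 1) \ {z}).ncard = n + 1 := by
    rw [Set.ncard_sdiff_singleton_of_mem (mem_lang_fac u i (n + 1))]
    have := hu (n + 1)
    unfold cpx at this
    omega
  have hfin : (lang u (n + 1) \ {z}).Finite := (lang_finite u (n + 1)).subset Set.sdiff_subset
  have hmaps : ∀ s ∈ Finset.range (n + 2), fac u (k + s) (n + 1) ∈ hfin.toFinset := by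
    intro s hs
    rw [Set.Finite.mem_toFinset]
    refine ⟨mem_lang_fac u _ _, ?_⟩
    intro h
    have h' : fac u (k + s) (n + 1) = fac u i (n + 1) := h
    rw [fac_eq_iff] at h'
    exact hns s (by have := Finset.mem_range.mp hs; omega)
      (hrs.congr (fun t ht => (h' t ht).symm))
  have hlt : hfin.toFinset.card < (Finset.range (n + 2)).card := by
    rw [← Set.ncard_eq_toFinset_card _ hfin, hcard, Finset.card_range]
    omega
  obtain ⟨a, ha, b, hb, hab, heq⟩ := Finset.exists_ne_map_eq_of_card_lt_of_maps_to hlt hmaps
  rw [Finset.mem_range] at ha hb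
  rw [fac_eq_iff] at heq
  rcases lt_or_gt_of_ne hab with h1 | h1
  · have := trap (x := u) (n := n + 1) (p := k + a) (d := b - a) (by omega)
      (by intro t ht; rw [show k + a + (b - a) = k + b by omega]; exact heq t ht)
      (fun τ hτ => by rw [show k + a + τ = k + (a + τ) by omega]; exact hns _ (by omega))
    exact hu.not_EP ⟨k + a, k + a + (b - a), by omega, this⟩
  · have := trap (x := u) (n := n + 1) (p := k + b) (d := a - b) (by omega)
      (by intro t ht; rw [show k + b + (a - b) = k + a by omega]; exact (heq t ht).symm)
      (fun τ hτ => by rw [show k + b + τ = k + (b + τ) by omega]; exact hns _ (by omega))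
    exact hu.not_EP ⟨k + b, k + b + (a - b), by omega, this⟩

lemma zmod2_eq_of_ne {a b c : ZMod 2} (h1 : a ≠ c) (h2 : b ≠ c) : a = b := by
  revert a b c; decide

/-- a Sturmian language is closed under reversal -/
lemma Sturmian.reversal (hu : Sturmian u) : ∀ n, RC u n := by
  intro n
  induction n with
  | zero => intro i; exact ⟨0, by simp⟩
  | succ N ih =>
    rcases Nat.eq_zero_or_pos N with rfl | hN
    · intro i
      refine ⟨i, fun t ht => ?_⟩
      congr 1
      omega
    obtain ⟨n, rfl⟩ : ∃ n, N = n + 1 := ⟨N - 1, by omega⟩
    -- now `|w| = n`, window is `b w a`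
    intro i
    by_cases hRS : RS u n (i + 1)
    · by_cases hLS : LS u n i
      · obtain ⟨k, hk1, hk2⟩ := hLS
        -- reversal of `b w` and `b' w`
        obtain ⟨j1, hj1⟩ := ih i
        obtain ⟨j2, hj2⟩ := ih k
        have hrsj : RS u n j1 := by
          refine ⟨j2, ?_, ?_⟩
          · intro t ht
            rw [hj1 t (by omega), hj2 t (by omega)]
            have := hk1 (n - 1 - t) (by omega)
            rw [show i + (n + 1 - 1 - t) = i + 1 + (n - 1 - t) by omega,
              show k + (n + 1 - 1 - t) = k + 1 + (n - 1 - t) by omega]
            exact this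
          · rw [hj1 n (by omega), hj2 n (by omega)]
            simpa using hk2
        have hpal : ∀ t < n, u (i + 1 + t) = u (i + n - t) := by
          intro t ht
          have h1 := hu.rs_unique hRS hrsj t ht
          rw [h1, hj1 t (by omega)]
          congr 1
          omega
        by_cases hab : u (i + (n + 1)) = u i
        · refine ⟨i, fun t ht => ?_⟩
          rcases Nat.eq_zero_or_pos t with rfl | ht0
          · simp only [add_zero]
            rw [← hab]
            rfl
          · rcases Nat.lt_or_ge t (n + 1) with h1 | h1
            · have := hpal (t - 1) (by omega)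
              rw [show i + 1 + (t - 1) = i + t by omega] at this
              rw [this]
              congr 1
              omega
            · have : t = n + 1 := by omega
              subst this
              rw [hab]
              congr 1
              omega
        · -- find `b' w b`
          by_contra hcon
          push Not at hcon
          have hnone : ∀ k', (∀ t < n, u (k' + 1 + t) = u (i + 1 + t)) → u k' ≠ u i →
              u (k' + n + 1) ≠ u i := by
            intro k' h1 h2 h3
            obtain ⟨t, ht, hne⟩ := hcon k'
            apply hne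
            rcases Nat.eq_zero_or_pos t with rfl | ht0
            · simp only [add_zero]
              rw [show i + (n + 1 + 1 - 1 - 0) = i + (n + 1) by omega]
              exact zmod2_eq_of_ne h2 hab
            · rcases Nat.lt_or_ge t (n + 1) with h4 | h4
              · have h5 := h1 (t - 1) (by omega)
                rw [show k' + 1 + (t - 1) = k' + t by omega] at h5
                rw [h5, hpal (t - 1) (by omega)]
                congr 1
                omega
              · have : t = n + 1 := by omega
                subst this
                rw [show k' + (n + 1) = k' + n + 1 by omega, h3]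
                congr 1
                omega
          -- `b' w b'` at `k`
          have hk3 : u (k + n + 1) ≠ u i := hnone k (fun t ht => (hk1 t ht).symm) (Ne.symm hk2)
          have hk4 : u (k + n + 1) = u k := zmod2_eq_of_ne hk3 (Ne.symm hk2)
          -- `w b` occurs somewhere
          obtain ⟨m, hm1, hm2⟩ := hRS
          obtain ⟨m', hm'1, hm'2⟩ := hu.recur m (n + 1) 1
          obtain ⟨m'', rfl⟩ : ∃ m'', m' = m'' + 1 := ⟨m' - 1, by omega⟩
          have hw : ∀ t < n, u (m'' + 1 + t) = u (i + 1 + t) := by
            intro t ht
            rw [← hm'2 t (by omega), hm1 t ht]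
          have hwb : u (m'' + n + 1) = u i := by
            have h5 := hm'2 n (by omega)
            have h6 : u (m'' + n + 1) ≠ u (i + 1 + n) := by
              rw [show m'' + n + 1 = m'' + 1 + n by omega, ← h5]
              exact Ne.symm hm2
            rw [show i + 1 + n = i + (n + 1) by omega] at h6
            exact zmod2_eq_of_ne h6 (Ne.symm hab)
          have hm3 : u m'' = u i := by
            by_contra h7
            exact hnone m'' hw h7 hwb
          have hrs : RS u (n + 1) i := by
            refine ⟨m'', ?_, ?_⟩
            · intro t ht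
              rcases Nat.eq_zero_or_pos t with rfl | ht0
              · simpa using hm3.symm
              · have h8 := hw (t - 1) (by omega)
                rw [show m'' + 1 + (t - 1) = m'' + t by omega,
                  show i + 1 + (t - 1) = i + t by omega] at h8
                exact h8.symm
            · rw [show m'' + (n + 1) = m'' + n + 1 by omega, hwb]
              exact hab
          refine hu.balanced_aux (n := n) (i := i) (k := k) ?_ hrs hk1 hk2 hk4
          intro t ht
          rw [← hk1 t ht, hpal t ht]
          have := hk1 (n - 1 - t) (by omega)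
          rw [show i + 1 + (n - 1 - t) = i + n - t by omega,
            show k + 1 + (n - 1 - t) = k + n - t by omega] at this
          exact this
      · -- not left special: reverse `w a`
        obtain ⟨j, hj⟩ := ih (i + 1)
        obtain ⟨k, hk⟩ := ih (j + 1)
        -- `d w` at `k`, `d = u (j + n + 1)`
        have hd : u (j + n + 1) = u i := by
          by_contra hne
          apply hLS
          refine ⟨k, ?_, ?_⟩
          · intro t ht
            rw [show k + 1 + t = k + (t + 1) by omega, hk (t + 1) (by omega)]
            rw [show j + 1 + (n + 1 - 1 - (t + 1)) = j + (n - t) by omega,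
              hj (n - t) (by omega)]
            congr 1
            omega
          · have := hk 0 (by omega)
            simp only [add_zero] at this
            rw [this, show j + 1 + (n + 1 - 1 - 0) = j + n + 1 by omega]
            exact Ne.symm hne
        refine ⟨j, fun t ht => ?_⟩
        rcases Nat.lt_or_ge t (n + 1) with h1 | h1
        · rw [hj t h1]
          congr 1
          omega
        · have : t = n + 1 := by omega
          subst this
          rw [show j + (n + 1) = j + n + 1 by omega, hd]
          congr 1
          omega
    · -- not right special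
      obtain ⟨j0, hj0⟩ := ih i
      obtain ⟨j, hj1, hj2⟩ := hu.recur j0 (n + 1) 1
      obtain ⟨j', rfl⟩ : ∃ j', j = j' + 1 := ⟨j - 1, by omega⟩
      obtain ⟨k, hk⟩ := ih j'
      have hc : u j' = u (i + (n + 1)) := by
        by_contra hne
        apply hRS
        refine ⟨k, ?_, ?_⟩
        · intro t ht
          rw [hk t (by omega)]
          have h1 := hj2 (n - 1 - t) (by omega)
          rw [show j' + (n + 1 - 1 - t) = j' + 1 + (n - 1 - t) by omega, ← h1,
            hj0 (n - 1 - t) (by omega)]
          congr 1
          omega
        · rw [hk n (by omega), show j' + (n + 1 - 1 - n) = j' by omega,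
            show i + 1 + n = i + (n + 1) by omega]
          exact Ne.symm hne
      refine ⟨j', fun t ht => ?_⟩
      rcases Nat.eq_zero_or_pos t with rfl | ht0
      · simp only [add_zero]
        rw [hc]
        congr 1
      · have h1 := hj2 (t - 1) (by omega)
        rw [show j' + 1 + (t - 1) = j' + t by omega] at h1
        rw [← h1, hj0 (t - 1) (by omega)]
        congr 1
        omega

end Pool.Agent.H57.RW
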