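import Mathlib
import Pool.Agent.H57.RW.Sturm

/-!
Palindromes in Sturmian words.
-/

namespace Pool.Agent.H57.RW

open Set

variable {u : ℕ → ZMod 2}

/-- the window at `i` of length `n` is a palindrome -/
def PalAt (x : ℕ → ZMod 2) (i n : ℕ) : Prop := ∀ t < n, x (i + t) = x (i + (n - 1 - t))

lemma palAt_iff {x : ℕ → ZMod 2} {i n : ℕ} : (fac x i n).reverse = fac x i n ↔ PalAt x i n := by
  rw [eq_comm, fac_eq_reverse_iff]
  rfl

lemma PalAt.inner {x : ℕ → ZMod 2} {i n : ℕ} (h : PalAt x i (n + 2)) : PalAt x (i + 1) n := by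
  intro t ht
  have := h (t + 1) (by omega)
  rw [show i + 1 + t = i + (t + 1) by omega, this]
  congr 1
  omega

lemma PalAt.ends {x : ℕ → ZMod 2} {i n : ℕ} (h : PalAt x i (n + 2)) : x i = x (i + n + 1) := by
  have := h 0 (by omega)
  simp only [add_zero] at this
  rw [this]
  congr 1

lemma PalAt.extend {x : ℕ → ZMod 2} {i n : ℕ} (h : PalAt x (i + 1) n) (he : x i = x (i + n + 1)) :
    PalAt x i (n + 2) := by
  intro t ht
  rcases Nat.eq_zero_or_pos t with rfl | ht0
  · simp only [add_zero]
    rw [he]
    congr 1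
  · rcases Nat.lt_or_ge t (n + 1) with h1 | h1
    · have := h (t - 1) (by omega)
      rw [show i + 1 + (t - 1) = i + t by omega] at this
      rw [this]
      congr 1
      omega
    · have ht' : t = n + 1 := by omega
      subst ht'
      rw [show i + (n + 1) = i + n + 1 by omega, ← he]
      congr 1
      omega

lemma Sturmian.pal_step_unique (hu : Sturmian u) {i j n : ℕ} (hi : PalAt u i (n + 2))
    (hj : PalAt u j (n + 2)) (h : ∀ t < n, u (i + 1 + t) = u (j + 1 + t)) :
    ∀ t < n + 2, u (i + t) = u (j + t) := by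
  have hkey : u i = u j := by
    by_contra hne
    by_cases hRS : RS u n (i + 1)
    · obtain ⟨p, hp⟩ := hu.rs_exists (n + 1)
      obtain ⟨q, hq1, hq2⟩ := hp
      have hrsp : RS u n (p + 1) := by
        refine ⟨q + 1, ?_, ?_⟩
        · intro t ht
          have := hq1 (t + 1) (by omega)
          rw [show p + 1 + t = p + (t + 1) by omega, show q + 1 + t = q + (t + 1) by omega]
          exact this
        · rw [show p + 1 + n = p + (n + 1) by omega, show q + 1 + n = q + (n + 1) by omega]
          exact hq2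
      have h1 := hu.rs_unique hrsp hRS
      have hp' : RS u (n + 1) p := ⟨q, hq1, hq2⟩
      rcases eq_or_ne (u p) (u i) with h2 | h2
      · have hrs : RS u (n + 1) i := hp'.congr (by
          intro t ht
          rcases Nat.eq_zero_or_pos t with rfl | ht0
          · simpa using h2
          · have := h1 (t - 1) (by omega)
            rw [show p + 1 + (t - 1) = p + t by omega,
              show i + 1 + (t - 1) = i + t by omega] at this
            exact this)
        refine hu.balanced_aux (n := n) (i := i) (k := j) ?_ hrs h hne hj.ends.symm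
        intro t ht
        have := hj.inner t ht
        rw [this]
        congr 1
        omega
      · have h3 : u p = u j := zmod2_eq_of_ne h2 (Ne.symm hne)
        have hrs : RS u (n + 1) j := hp'.congr (by
          intro t ht
          rcases Nat.eq_zero_or_pos t with rfl | ht0
          · simpa using h3
          · have h4 := h1 (t - 1) (by omega)
            have h5 := h (t - 1) (by omega)
            rw [show p + 1 + (t - 1) = p + t by omega] at h4
            rw [show j + 1 + (t - 1) = j + t by omega] at h5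
            rw [h4, h5])
        refine hu.balanced_aux (n := n) (i := j) (k := i) ?_ hrs (fun t ht => (h t ht).symm)
          (Ne.symm hne) hi.ends.symm
        intro t ht
        have := hi.inner t ht
        rw [this]
        congr 1
        omega
    · apply hRS
      refine ⟨j + 1, h, ?_⟩
      rw [show i + 1 + n = i + n + 1 by omega, show j + 1 + n = j + n + 1 by omega,
        ← hi.ends, ← hj.ends]
      exact hne
  intro t ht
  rcases Nat.eq_zero_or_pos t with rfl | ht0
  · simpa using hkey
  · rcases Nat.lt_or_ge t (n + 1) with h1 | h1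
    · have := h (t - 1) (by omega)
      rw [show i + 1 + (t - 1) = i + t by omega,
        show j + 1 + (t - 1) = j + t by omega] at this
      exact this
    · have ht' : t = n + 1 := by omega
      subst ht'
      rw [show i + (n + 1) = i + n + 1 by omega, show j + (n + 1) = j + n + 1 by omega,
        ← hi.ends, ← hj.ends, hkey]

lemma Sturmian.pal_step_exists (hu : Sturmian u) {i n : ℕ} (hi : PalAt u i n) :
    ∃ k, PalAt u k (n + 2) ∧ ∀ t < n, u (k + 1 + t) = u (i + t) := by
  by_cases hRS : RS u n i
  · obtain ⟨p, hp⟩ := hu.rs_exists (n + 1)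
    obtain ⟨q, hq1, hq2⟩ := hp
    have hrsp : RS u n (p + 1) := by
      refine ⟨q + 1, ?_, ?_⟩
      · intro t ht
        have := hq1 (t + 1) (by omega)
        rw [show p + 1 + t = p + (t + 1) by omega, show q + 1 + t = q + (t + 1) by omega]
        exact this
      · rw [show p + 1 + n = p + (n + 1) by omega, show q + 1 + n = q + (n + 1) by omega]
        exact hq2
    have h1 := hu.rs_unique hrsp hRS
    have h2 : ∀ t < n, u (q + 1 + t) = u (i + t) := by
      intro t ht
      rw [← h1 t ht]
      have := hq1 (t + 1) (by omega)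
      rw [show p + 1 + t = p + (t + 1) by omega, show q + 1 + t = q + (t + 1) by omega]
      exact this.symm
    have hpal : ∀ r, (∀ t < n, u (r + 1 + t) = u (i + t)) → PalAt u (r + 1) n := by
      intro r hr t ht
      rw [hr t ht, hr (n - 1 - t) (by omega)]
      exact hi t ht
    have hpq : u p = u q := by simpa using hq1 0 (by omega)
    by_cases h3 : u (p + n + 1) = u p
    · exact ⟨p, (hpal p h1).extend h3.symm, h1⟩
    · refine ⟨q, (hpal q h2).extend ?_, h2⟩
      have h4 : u (q + n + 1) ≠ u (p + n + 1) := by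
        rw [show q + n + 1 = q + (n + 1) by omega, show p + n + 1 = p + (n + 1) by omega]
        exact Ne.symm hq2
      rw [← hpq]
      exact (zmod2_eq_of_ne h4 (Ne.symm h3)).symm
  · obtain ⟨j, hj1, hj2⟩ := hu.recur i n 1
    obtain ⟨k, rfl⟩ : ∃ k, j = k + 1 := ⟨j - 1, by omega⟩
    obtain ⟨m, hm⟩ := hu.reversal (n + 1) k
    have hpal : PalAt u (k + 1) n := by
      intro t ht
      rw [← hj2 t ht, ← hj2 (n - 1 - t) (by omega)]
      exact hi t ht
    refine ⟨k, hpal.extend ?_, fun t ht => (hj2 t ht).symm⟩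
    by_contra hne
    apply hRS
    have hrs : RS u n (k + 1) := by
      refine ⟨m, ?_, ?_⟩
      · intro t ht
        rw [hm t (by omega), hpal t ht]
        congr 1
        omega
      · rw [hm n (by omega), show k + (n + 1 - 1 - n) = k by omega,
          show k + 1 + n = k + n + 1 by omega]
        exact Ne.symm hne
    exact hrs.congr (fun t ht => (hj2 t ht).symm)

lemma Sturmian.letter (hu : Sturmian u) (c : ZMod 2) : ∃ i, u i = c := by
  obtain ⟨i, j, _, hne⟩ := hu.rs_exists 0
  simp only [add_zero] at hne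
  by_cases h : u i = c
  · exact ⟨i, h⟩
  · exact ⟨j, zmod2_eq_of_ne (Ne.symm hne) (Ne.symm h)⟩

lemma Sturmian.pal_even (hu : Sturmian u) (m : ℕ) : (∃ i, PalAt u i (2 * m)) ∧
    ∀ i j, PalAt u i (2 * m) → PalAt u j (2 * m) → ∀ t < 2 * m, u (i + t) = u (j + t) := by
  induction m with
  | zero => exact ⟨⟨0, fun t ht => by omega⟩, fun i j _ _ t ht => by omega⟩
  | succ m ih =>
    rw [show 2 * (m + 1) = 2 * m + 2 by ring]
    constructor
    · obtain ⟨i, hi⟩ := ih.1
      obtain ⟨k, hk, _⟩ := hu.pal_step_exists hi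
      exact ⟨k, hk⟩
    · intro i j hi hj
      exact hu.pal_step_unique hi hj (ih.2 _ _ hi.inner hj.inner)

lemma Sturmian.pal_odd (hu : Sturmian u) (c : ZMod 2) (m : ℕ) :
    (∃ i, PalAt u i (2 * m + 1) ∧ u (i + m) = c) ∧
    ∀ i j, PalAt u i (2 * m + 1) → PalAt u j (2 * m + 1) → u (i + m) = c → u (j + m) = c →
      ∀ t < 2 * m + 1, u (i + t) = u (j + t) := by
  induction m with
  | zero =>
    constructor
    · obtain ⟨i, hi⟩ := hu.letter c
      exact ⟨i, fun t ht => by congr 1; omega, by simpa using hi⟩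
    · intro i j _ _ h1 h2 t ht
      have : t = 0 := by omega
      subst this
      rw [h1, h2]
  | succ m ih =>
    rw [show 2 * (m + 1) + 1 = 2 * m + 1 + 2 by ring]
    constructor
    · obtain ⟨i, hi, hic⟩ := ih.1
      obtain ⟨k, hk, hk2⟩ := hu.pal_step_exists hi
      refine ⟨k, hk, ?_⟩
      rw [← hic, ← hk2 m (by omega)]
      congr 1
      omega
    · intro i j hi hj h1 h2
      refine hu.pal_step_unique hi hj (ih.2 _ _ hi.inner hj.inner ?_ ?_)
      · rw [← h1]; congr 1; omega
      · rw [← h2]; congr 1; omega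

/-- The number of palindromic factors of length `n`. -/
noncomputable def pal (x : ℕ → ZMod 2) (n : ℕ) : ℕ := {w ∈ lang x n | w.reverse = w}.ncard

/-- The number of palindromic factors of length `2m+1` with middle letter `c`. -/
noncomputable def palMid (x : ℕ → ZMod 2) (m : ℕ) (c : ZMod 2) : ℕ :=
  {w ∈ lang x (2 * m + 1) | w.reverse = w ∧ w[m]? = some c}.ncard

lemma fac_getElem? (x : ℕ → ZMod 2) (i n t : ℕ) (h : t < n) : (fac x i n)[t]? = some (x (i + t)) := by
  rw [List.getElem?_eq_getElem (by simpa using h), fac_getElem]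

lemma Sturmian.pal_two_mul (hu : Sturmian u) (m : ℕ) : pal u (2 * m) = 1 := by
  obtain ⟨⟨i, hi⟩, huniq⟩ := hu.pal_even m
  unfold pal
  rw [Set.ncard_eq_one]
  refine ⟨fac u i (2 * m), ?_⟩
  ext w
  constructor
  · rintro ⟨⟨j, rfl⟩, hw⟩
    rw [palAt_iff] at hw
    exact fac_eq_iff.mpr (huniq j i hw hi)
  · rintro rfl
    exact ⟨mem_lang_fac _ _ _, palAt_iff.mpr hi⟩

lemma Sturmian.palMid_eq (hu : Sturmian u) (m : ℕ) (c : ZMod 2) : palMid u m c = 1 := by
  obtain ⟨⟨i, hi, hic⟩, huniq⟩ := hu.pal_odd c m
  unfold palMid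
  rw [Set.ncard_eq_one]
  refine ⟨fac u i (2 * m + 1), ?_⟩
  ext w
  constructor
  · rintro ⟨⟨j, rfl⟩, hw, hc⟩
    rw [palAt_iff] at hw
    rw [fac_getElem? _ _ _ _ (by omega)] at hc
    exact fac_eq_iff.mpr (huniq j i hw hi (Option.some_injective _ hc) hic)
  · rintro rfl
    refine ⟨mem_lang_fac _ _ _, palAt_iff.mpr hi, ?_⟩
    rw [fac_getElem? _ _ _ _ (by omega), hic]

/-- palindromes of odd length are split according to their middle letter -/
lemma pal_odd_eq (x : ℕ → ZMod 2) (m : ℕ) : pal x (2 * m + 1) = palMid x m 0 + palMid x m 1 := by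
  have hfin : ∀ c : ZMod 2,
      {w ∈ lang x (2 * m + 1) | w.reverse = w ∧ w[m]? = some c}.Finite :=
    fun c => (lang_finite x _).subset (fun w hw => hw.1)
  have hdisj : Disjoint {w ∈ lang x (2 * m + 1) | w.reverse = w ∧ w[m]? = some 0}
      {w ∈ lang x (2 * m + 1) | w.reverse = w ∧ w[m]? = some 1} := by
    rw [Set.disjoint_left]
    rintro w ⟨_, _, h1⟩ ⟨_, _, h2⟩
    rw [h1] at h2
    exact absurd (Option.some_injective _ h2) (by decide)
  unfold pal palMid
  rw [← Set.ncard_union_eq hdisj (hfin 0) (hfin 1)]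
  congr 1
  ext w
  constructor
  · rintro ⟨⟨i, rfl⟩, hw⟩
    rcases zmod2_cases (x (i + m)) with h | h
    · left
      exact ⟨mem_lang_fac _ _ _, hw, by rw [fac_getElem? _ _ _ _ (by omega), h]⟩
    · right
      exact ⟨mem_lang_fac _ _ _, hw, by rw [fac_getElem? _ _ _ _ (by omega), h]⟩
  · rintro (⟨h1, h2, _⟩ | ⟨h1, h2, _⟩)
    · exact ⟨h1, h2⟩
    · exact ⟨h1, h2⟩

end Pool.Agent.H57.RW
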