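import Mathlib
import Pool.Agent.H57.RW.Sturm

/-!
Skew products over Sturmian words: if the group acts transitively then every state is seen at
the occurrences of every factor.
-/

namespace Pool.Agent.H57.RW

open Finset

variable {u : ℕ → ZMod 2}

lemma Sturmian.ext_rs (hu : Sturmian u) (i N : ℕ) : ∃ N', N ≤ N' ∧ RS u N' i := by
  by_contra hcon
  push Not at hcon
  obtain ⟨j, hj1, hj2⟩ := hu.recur i N (i + 1)
  apply hu.not_EP
  refine ⟨i, j, by omega, ?_⟩
  intro t
  induction t using Nat.strong_induction_on with
  | _ t ih =>
    rcases Nat.lt_or_ge t N with h | h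
    · exact hj2 t h
    · by_contra hne
      exact hcon t h ⟨j, ih, hne⟩

lemma RS.tail {x : ℕ → ZMod 2} {n i : ℕ} (h : RS x (n + 1) i) : RS x n (i + 1) := by
  obtain ⟨j, hj1, hj2⟩ := h
  refine ⟨j + 1, ?_, ?_⟩
  · intro t ht
    have := hj1 (t + 1) (by omega)
    rw [show i + 1 + t = i + (t + 1) by omega, show j + 1 + t = j + (t + 1) by omega]
    exact this
  · rw [show i + 1 + n = i + (n + 1) by omega, show j + 1 + n = j + (n + 1) by omega]
    exact hj2

theorem Sturmian.skew (hu : Sturmian u) {Q : Type*} [Fintype Q] [DecidableEq Q]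
    (g : ZMod 2 → Equiv.Perm Q) (s : ℕ → Q) (hs : ∀ n, s (n + 1) = g (u n) (s n))
    (htrans : ∀ V : Finset Q, V.Nonempty → (∀ a, V.image (g a) = V) → V = univ) :
    ∀ (i N : ℕ) (q : Q), ∃ j, (∀ t < N, u (i + t) = u (j + t)) ∧ s j = q := by
  classical
  set V : ℕ → ℕ → Finset Q := fun N i =>
    univ.filter (fun q => ∃ j, (∀ t < N, u (i + t) = u (j + t)) ∧ s j = q) with hV
  have hmem : ∀ N i q, q ∈ V N i ↔ ∃ j, (∀ t < N, u (i + t) = u (j + t)) ∧ s j = q := by
    intro N i q
    simp [hV]
  have hne : ∀ N i, (V N i).Nonempty := fun N i =>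
    ⟨s i, (hmem N i _).mpr ⟨i, fun _ _ => rfl, rfl⟩⟩
  have hcongr : ∀ N i j, (∀ t < N, u (i + t) = u (j + t)) → V N i = V N j := by
    intro N i j hij
    ext q
    rw [hmem, hmem]
    constructor
    · rintro ⟨k, hk, rfl⟩
      exact ⟨k, fun t ht => (hij t ht).symm.trans (hk t ht), rfl⟩
    · rintro ⟨k, hk, rfl⟩
      exact ⟨k, fun t ht => (hij t ht).trans (hk t ht), rfl⟩
  have hmono : ∀ N i, V (N + 1) i ⊆ V N i := by
    intro N i q hq
    rw [hmem] at hq ⊢
    obtain ⟨j, hj, rfl⟩ := hq
    exact ⟨j, fun t ht => hj t (by omega), rfl⟩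
  have hpush : ∀ N i, (V (N + 1) i).image (g (u i)) ⊆ V N (i + 1) := by
    intro N i q hq
    rw [Finset.mem_image] at hq
    obtain ⟨q', hq', rfl⟩ := hq
    rw [hmem] at hq' ⊢
    obtain ⟨j, hj, rfl⟩ := hq'
    refine ⟨j + 1, ?_, ?_⟩
    · intro t ht
      have := hj (t + 1) (by omega)
      rw [show i + 1 + t = i + (t + 1) by omega, show j + 1 + t = j + (t + 1) by omega]
      exact this
    · rw [hs]
      have := hj 0 (by omega)
      simp only [add_zero] at this
      rw [this]
  have hcardpush : ∀ N i, (V (N + 1) i).card ≤ (V N (i + 1)).card := by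
    intro N i
    rw [← Finset.card_image_of_injective (V (N + 1) i) (g (u i)).injective]
    exact Finset.card_le_card (hpush N i)
  have hcardpush' : ∀ d N i, (V (N + d) i).card ≤ (V N (i + d)).card := by
    intro d
    induction d with
    | zero => intro N i; exact le_rfl
    | succ d ih =>
      intro N i
      calc (V (N + (d + 1)) i).card = (V ((N + d) + 1) i).card := rfl
        _ ≤ (V (N + d) (i + 1)).card := hcardpush _ _
        _ ≤ (V N (i + 1 + d)).card := ih _ _
        _ = (V N (i + (d + 1))).card := by rw [show i + 1 + d = i + (d + 1) by omega]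
  have hns : ∀ N i, ¬ RS u N i → V (N + 1) i = V N i := by
    intro N i h
    apply Finset.Subset.antisymm (hmono N i)
    intro q hq
    rw [hmem] at hq ⊢
    obtain ⟨j, hj, rfl⟩ := hq
    refine ⟨j, fun t ht => ?_, rfl⟩
    rcases Nat.lt_or_ge t N with h1 | h1
    · exact hj t h1
    · have : t = N := by omega
      subst this
      by_contra hne'
      exact h ⟨j, hj, hne'⟩
  -- the minimal cardinality
  obtain ⟨N0, i0, hmin⟩ : ∃ N0 i0, ∀ N i, (V N0 i0).card ≤ (V N i).card := by
    set f : ℕ × ℕ → ℕ := fun p => (V p.1 p.2).card with hf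
    have h1 := Nat.sInf_mem (s := Set.range f) ⟨f (0, 0), ⟨_, rfl⟩⟩
    obtain ⟨⟨N0, i0⟩, h2⟩ := h1
    refine ⟨N0, i0, fun N i => ?_⟩
    have h3 : f (N0, i0) = sInf (Set.range f) := h2
    have h4 : sInf (Set.range f) ≤ f (N, i) := Nat.sInf_le ⟨_, rfl⟩
    rw [← h3] at h4
    exact h4
  set m := (V N0 i0).card with hm
  obtain ⟨M, hM, hMrs⟩ := hu.ext_rs i0 N0
  have hVM : (V M i0).card = m := by
    apply le_antisymm _ (hmin _ _)
    apply Finset.card_le_card
    intro q hq
    rw [hmem] at hq ⊢
    obtain ⟨j, hj, rfl⟩ := hq
    exact ⟨j, fun t ht => hj t (by omega), rfl⟩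
  -- right special windows of length at least `M`
  have hrscard : ∀ d i, RS u (M + d) i → (V (M + d) i).card = m := by
    intro d i hrs
    apply le_antisymm _ (hmin _ _)
    have htail : RS u M (i + d) := by
      clear hmem
      induction d generalizing i with
      | zero => exact hrs
      | succ d ih =>
        have := ih (i + 1) (RS.tail hrs)
        rwa [show i + 1 + d = i + (d + 1) by omega] at this
    calc (V (M + d) i).card ≤ (V M (i + d)).card := hcardpush' d M i
      _ = (V M i0).card := by rw [hcongr M (i + d) i0 (hu.rs_unique htail hMrs)]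
      _ = m := hVM
  have hallcard : ∀ d N i, M ≤ N → RS u (N + d) i → (V N i).card = m := by
    intro d
    induction d with
    | zero =>
      intro N i hN hrs
      have := hrscard (N - M) i (by rw [show M + (N - M) = N by omega]; exact hrs)
      rwa [show M + (N - M) = N by omega] at this
    | succ d ih =>
      intro N i hN hrs
      by_cases h : RS u N i
      · have := hrscard (N - M) i (by rw [show M + (N - M) = N by omega]; exact h)
        rwa [show M + (N - M) = N by omega] at this
      · rw [← hns N i h]
        exact ih (N + 1) i (by omega) (by rwa [show N + 1 + d = N + (d + 1) by omega])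
  have hcard : ∀ N i, M ≤ N → (V N i).card = m := by
    intro N i hN
    obtain ⟨N', hN', hrs⟩ := hu.ext_rs i N
    exact hallcard (N' - N) N i hN (by rwa [show N + (N' - N) = N' by omega])
  have hstab : ∀ N i, M ≤ N → V (N + 1) i = V N i := by
    intro N i hN
    apply Finset.eq_of_subset_of_card_le (hmono N i)
    rw [hcard N i hN, hcard (N + 1) i (by omega)]
  have hstab' : ∀ d i, V (M + d) i = V M i := by
    intro d i
    induction d with
    | zero => rfl
    | succ d ih => rw [show M + (d + 1) = (M + d) + 1 by omega, hstab _ i (by omega), ih]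
  have htransport : ∀ i, (V M i).image (g (u i)) = V M (i + 1) := by
    intro i
    have h1 := hpush M i
    rw [hstab M i le_rfl] at h1
    apply Finset.eq_of_subset_of_card_le h1
    rw [Finset.card_image_of_injective _ (g (u i)).injective, hcard M i le_rfl,
      hcard M (i + 1) le_rfl]
  -- push down
  have hclaim : ∀ d K, K + d = M → ∀ i j, (∀ t < K, u (i + t) = u (j + t)) →
      V M i = V M j := by
    intro d
    induction d with
    | zero =>
      intro K hK i j hij
      have : K = M := by omega
      subst this
      exact hcongr K i j hij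
    | succ d ih =>
      intro K hK i j hij
      have ih' := ih (K + 1) (by omega)
      by_cases hnext : u (i + K) = u (j + K)
      · apply ih' i j
        intro t ht
        rcases Nat.lt_or_ge t K with h1 | h1
        · exact hij t h1
        · have : t = K := by omega
          subst this
          exact hnext
      · have hrsK : RS u K i := ⟨j, hij, hnext⟩
        obtain ⟨p, q, hq1, hq2⟩ := hu.rs_exists (K + 1)
        have hp : RS u K (p + 1) := RS.tail ⟨q, hq1, hq2⟩
        have hpi := hu.rs_unique hp hrsK
        -- extensions of the right special word at `p` and at `q`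
        have hcase : ∀ r, (∀ t < K + 1, u (p + t) = u (r + t)) →
            ∀ k, (∀ t < K, u (i + t) = u (k + t)) → u (r + (K + 1)) = u (k + K) →
            V M k = (V M p).image (g (u p)) := by
          intro r hr k hk hrk
          have h1 : V M p = V M r := ih' p r hr
          have h2 : V M k = V M (r + 1) := by
            apply ih' k (r + 1)
            intro t ht
            rcases Nat.lt_or_ge t K with h3 | h3
            · rw [← hk t h3, ← hpi t h3]
              have := hr (t + 1) (by omega)
              rw [show p + 1 + t = p + (t + 1) by omega,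
                show r + 1 + t = r + (t + 1) by omega]
              exact this
            · have : t = K := by omega
              subst this
              rw [show r + 1 + t = r + (t + 1) by omega]
              exact hrk.symm
          have h4 : u p = u r := by simpa using hr 0 (by omega)
          rw [h2, ← htransport r, h1, h4]
        have hpp : ∀ t < K + 1, u (p + t) = u (p + t) := fun _ _ => rfl
        have hA : ∀ k, (∀ t < K, u (i + t) = u (k + t)) → V M k = (V M p).image (g (u p)) := by
          intro k hk
          by_cases h5 : u (p + (K + 1)) = u (k + K)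
          · exact hcase p hpp k hk h5
          · exact hcase q hq1 k hk (zmod2_eq_of_ne (Ne.symm hq2) (Ne.symm h5))
        rw [hA i (fun _ _ => rfl), hA j hij]
  have hconst : ∀ i, V M i = V M 0 := fun i => hclaim M 0 (by omega) i 0 (by intro t ht; omega)
  have huniv : V M 0 = univ := by
    apply htrans _ (hne M 0)
    intro a
    obtain ⟨i, hi⟩ : ∃ i, u i = a := by
      obtain ⟨i, j, _, hne'⟩ := hu.rs_exists 0
      simp only [add_zero] at hne'
      by_cases h : u i = a
      · exact ⟨i, h⟩
      · exact ⟨j, zmod2_eq_of_ne (Ne.symm hne') (Ne.symm h)⟩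
    have := htransport i
    rw [hconst i, hconst (i + 1), hi] at this
    exact this
  intro i N q
  have h1 : q ∈ V (M + N) i := by
    rw [hstab', hconst, huniv]
    exact Finset.mem_univ q
  rw [hmem] at h1
  obtain ⟨j, hj, hjq⟩ := h1
  exact ⟨j, fun t ht => hj t (by omega), hjq⟩

end Pool.Agent.H57.RW
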