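import Mathlib
import Pool.Agent.H57.RW.Pal
import Pool.Agent.H57.RW.Skew

/-!
Preimages under the map `S`, closure under the exchange of letters, and counting.
-/

namespace Pool.Agent.H57.RW

open Set

/-- The map `S`: `S(x)_i = x_i + x_{i+1} mod 2`. -/
def S (x : ℕ → ZMod 2) : ℕ → ZMod 2 := fun i => x i + x (i + 1)

/-- The antimorphism `E`: reversal together with the exchange of letters. -/
def E (w : List (ZMod 2)) : List (ZMod 2) := (w.map (· + 1)).reverse

/-- The number of factors of length `n` fixed by `E`. -/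
noncomputable def epal (x : ℕ → ZMod 2) (n : ℕ) : ℕ := {w ∈ lang x n | E w = w}.ncard

/-- closure of the language under the exchange of letters -/
def CC (x : ℕ → ZMod 2) : Prop := ∀ i n, ∃ j, ∀ t < n, x (j + t) = x (i + t) + 1

lemma z_add_self (a : ZMod 2) : a + a = 0 := by revert a; decide

lemma z_cancel {a b c d : ZMod 2} (h : a + b = c + d) (h' : a = c + 1) : b = d + 1 := by
  revert a b c d; decide

lemma z_cancel' {a b c d : ZMod 2} (h : a + b = c + d) (h' : a = c) : b = d := by
  revert a b c d; decide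

lemma z_ne {a b : ZMod 2} (h : a ≠ b) : a = b + 1 := by
  revert a b; decide

/-- equal derivatives and opposite first letters -/
lemma opp_of {x y : ℕ → ZMod 2} {i j n : ℕ} (h0 : x j = y i + 1)
    (h : ∀ t < n, S x (j + t) = S y (i + t)) : ∀ t < n + 1, x (j + t) = y (i + t) + 1 := by
  intro t
  induction t with
  | zero => intro _; simpa using h0
  | succ t ih =>
    intro ht
    have h1 := ih (by omega)
    have h2 := h t (by omega)
    unfold S at h2
    have h3 := z_cancel h2 h1
    rw [show j + (t + 1) = j + t + 1 by omega, show i + (t + 1) = i + t + 1 by omega]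
    exact h3

lemma eq_of {x y : ℕ → ZMod 2} {i j n : ℕ} (h0 : x j = y i)
    (h : ∀ t < n, S x (j + t) = S y (i + t)) : ∀ t < n + 1, x (j + t) = y (i + t) := by
  intro t
  induction t with
  | zero => intro _; simpa using h0
  | succ t ih =>
    intro ht
    have h1 := ih (by omega)
    have h2 := h t (by omega)
    unfold S at h2
    have h3 := z_cancel' h2 h1
    rw [show j + (t + 1) = j + t + 1 by omega, show i + (t + 1) = i + t + 1 by omega]
    exact h3

/-! ### closure under the exchange of letters -/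

lemma cc_one {u x : ℕ → ZMod 2} (hu : Sturmian u) (hx : S x = u) : CC x := by
  intro i n
  have hstep : ∀ n, x (n + 1) = x n + u n := by
    intro n
    rw [← hx]
    unfold S
    have : ∀ a b : ZMod 2, b = a + (a + b) := by decide
    exact this _ _
  obtain ⟨j, hj1, hj2⟩ := hu.skew (Q := ZMod 2) (fun a => Equiv.addRight a) x
    (fun n => by simpa using hstep n) (by decide) i n (x i + 1)
  refine ⟨j, fun t ht => ?_⟩
  refine opp_of hj2 ?_ t (Nat.lt_succ_of_lt ht)
  intro t ht
  rw [hx]
  exact (hj1 t ht).symm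

/-- the state map for second preimages -/
def g2 (a : ZMod 2) : Equiv.Perm (ZMod 2 × ZMod 2) where
  toFun p := (p.2, p.1 + a)
  invFun p := (p.2 + a, p.1)
  left_inv := by
    rintro ⟨p, q⟩
    have : ∀ a p : ZMod 2, p + a + a = p := by decide
    simp [this]
  right_inv := by
    rintro ⟨p, q⟩
    have : ∀ a p : ZMod 2, p + a + a = p := by decide
    simp [this]

lemma cc_two {u x : ℕ → ZMod 2} (hu : Sturmian u) (hx : S (S x) = u) : CC x := by
  intro i n
  have hstep : ∀ n, x (n + 2) = x n + u n := by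
    intro n
    rw [← hx]
    unfold S
    have : ∀ a b c : ZMod 2, c = a + (a + b + (b + c)) := by decide
    exact this _ _ _
  have htr : ∀ V : Finset (ZMod 2 × ZMod 2), V.Nonempty →
      (∀ a, V.image (g2 a) = V) → V = Finset.univ := by
    intro V hV h
    have hcl : ∀ a p, p ∈ V → g2 a p ∈ V := fun a p hp => by
      have h1 := Finset.mem_image_of_mem (g2 a) hp
      rwa [h a] at h1
    obtain ⟨⟨p, q⟩, hpq⟩ := hV
    have hsw : ∀ p q : ZMod 2, (p, q) ∈ V → (q, p) ∈ V := by
      intro p q h
      have := hcl 0 _ h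
      simpa [g2] using this
    have ht2 : ∀ p q : ZMod 2, (p, q) ∈ V → (p, q + 1) ∈ V := by
      intro p q h
      have := hcl 1 _ (hsw _ _ h)
      simpa [g2] using this
    have ht1 : ∀ p q : ZMod 2, (p, q) ∈ V → (p + 1, q) ∈ V := by
      intro p q h
      exact hsw _ _ (ht2 _ _ (hsw _ _ h))
    rw [Finset.eq_univ_iff_forall]
    rintro ⟨a, b⟩
    have hb : (p, b) ∈ V := by
      by_cases h : b = q
      · rw [h]; exact hpq
      · rw [z_ne h]; exact ht2 _ _ hpq
    by_cases h : a = p
    · rw [h]; exact hb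
    · rw [z_ne h]; exact ht1 _ _ hb
  obtain ⟨j, hj1, hj2⟩ := hu.skew (Q := ZMod 2 × ZMod 2) g2 (fun n => (x n, x (n + 1)))
    (fun n => by simp [g2, hstep]) htr i n (x i + 1, x (i + 1) + 1)
  have h1 : x j = x i + 1 := congrArg Prod.fst hj2
  have h2 : x (j + 1) = x (i + 1) + 1 := congrArg Prod.snd hj2
  have h3 : S x j = S x i := by
    unfold S
    rw [h1, h2]
    have : ∀ a b : ZMod 2, a + 1 + (b + 1) = a + b := by decide
    exact this _ _
  have h4 := eq_of (x := S x) (y := S x) (n := n) h3 (by
    intro t ht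
    rw [hx]
    exact (hj1 t ht).symm)
  refine ⟨j, fun t ht => ?_⟩
  exact opp_of h1 h4 t (by omega)

/-- the state map for third preimages -/
def g3 (a : ZMod 2) : Equiv.Perm (ZMod 2 × ZMod 2 × ZMod 2) where
  toFun p := (p.2.1, p.2.2, p.1 + p.2.1 + p.2.2 + a)
  invFun p := (p.2.2 + p.1 + p.2.1 + a, p.1, p.2.1)
  left_inv := by
    rintro ⟨p, q, r⟩
    have : ∀ a p q r : ZMod 2, p + q + r + a + q + r + a = p := by decide
    simp [this]
  right_inv := by
    rintro ⟨p, q, r⟩
    have : ∀ a p q r : ZMod 2, r + p + q + a + p + q + a = r := by decide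
    simp [this]

lemma skew_three {u x : ℕ → ZMod 2} (hu : Sturmian u) (hx : S (S (S x)) = u) (i n : ℕ)
    (q : ZMod 2 × ZMod 2 × ZMod 2) :
    ∃ j, (∀ t < n, u (i + t) = u (j + t)) ∧ (x j, x (j + 1), x (j + 2)) = q := by
  have hstep : ∀ n, x (n + 3) = x n + x (n + 1) + x (n + 2) + u n := by
    intro n
    rw [← hx]
    unfold S
    have : ∀ a b c d : ZMod 2,
        d = a + b + c + (a + b + (b + c) + (b + c + (c + d))) := by decide
    exact this _ _ _ _
  have htr : ∀ V : Finset (ZMod 2 × ZMod 2 × ZMod 2), V.Nonempty →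
      (∀ a, V.image (g3 a) = V) → V = Finset.univ := by
    intro V hV h
    have hcl : ∀ a p, p ∈ V → g3 a p ∈ V := fun a p hp => by
      have h1 := Finset.mem_image_of_mem (g3 a) hp
      rwa [h a] at h1
    have hcl' : ∀ a p, p ∈ V → (g3 a).symm p ∈ V := fun a p hp => by
      have h1 : p ∈ V.image (g3 a) := by rw [h a]; exact hp
      obtain ⟨q, hq, rfl⟩ := Finset.mem_image.mp h1
      simpa using hq
    obtain ⟨⟨p, q, r⟩, hpq⟩ := hV
    have ht3 : ∀ p q r : ZMod 2, (p, q, r) ∈ V → (p, q, r + 1) ∈ V := by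
      intro p q r h
      have := hcl 1 _ (hcl' 0 _ h)
      have e : ∀ p q r : ZMod 2, r + p + q + p + q + 1 = r + 1 := by decide
      simpa [g3, e] using this
    have ht2 : ∀ p q r : ZMod 2, (p, q, r) ∈ V → (p, q + 1, r) ∈ V := by
      intro p q r h
      have := hcl 0 _ (ht3 _ _ _ (hcl' 0 _ h))
      have h2 := ht3 _ _ _ this
      have e : ∀ p q r : ZMod 2, r + p + q + p + (q + 1) + 1 = r := by decide
      simpa [g3, e] using h2
    have ht1 : ∀ p q r : ZMod 2, (p, q, r) ∈ V → (p + 1, q, r) ∈ V := by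
      intro p q r h
      have := hcl 0 _ (ht2 _ _ _ (hcl' 0 _ h))
      have h2 := ht3 _ _ _ this
      have e : ∀ p q r : ZMod 2, r + p + q + (p + 1) + q + 1 = r := by decide
      simpa [g3, e] using h2
    rw [Finset.eq_univ_iff_forall]
    rintro ⟨a, b, c⟩
    have hc : (p, q, c) ∈ V := by
      by_cases h : c = r
      · rw [h]; exact hpq
      · rw [z_ne h]; exact ht3 _ _ _ hpq
    have hb : (p, b, c) ∈ V := by
      by_cases h : b = q
      · rw [h]; exact hc
      · rw [z_ne h]; exact ht2 _ _ _ hc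
    by_cases h : a = p
    · rw [h]; exact hb
    · rw [z_ne h]; exact ht1 _ _ _ hb
  exact hu.skew (Q := ZMod 2 × ZMod 2 × ZMod 2) g3
    (fun n => (x n, x (n + 1), x (n + 2)))
    (fun n => by simp [g3, hstep]) htr i n q

lemma cc_three {u x : ℕ → ZMod 2} (hu : Sturmian u) (hx : S (S (S x)) = u) : CC x := by
  intro i n
  obtain ⟨j, hj1, hj2⟩ := skew_three hu hx i n (x i + 1, x (i + 1) + 1, x (i + 2) + 1)
  have h1 : x j = x i + 1 := congrArg Prod.fst hj2
  have h2 : x (j + 1) = x (i + 1) + 1 := congrArg (fun p => p.2.1) hj2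
  have h2' : x (j + 2) = x (i + 2) + 1 := congrArg (fun p => p.2.2) hj2
  have e : ∀ a b : ZMod 2, a + 1 + (b + 1) = a + b := by decide
  have h3 : S x j = S x i := by
    unfold S
    rw [h1, h2]
    exact e _ _
  have h3' : S x (j + 1) = S x (i + 1) := by
    unfold S
    rw [h2, show j + 1 + 1 = j + 2 by omega, h2']
    exact e _ _
  have h3'' : S (S x) j = S (S x) i := by
    unfold S at h3 h3' ⊢
    rw [h3, h3']
  have h4 := eq_of (x := S (S x)) (y := S (S x)) (n := n) h3'' (by
    intro t ht
    rw [hx]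
    exact (hj1 t ht).symm)
  have h5 := eq_of (x := S x) (y := S x) (n := n + 1) h3 h4
  refine ⟨j, fun t ht => ?_⟩
  exact opp_of h1 h5 t (by omega)

/-! ### closure under reversal -/

lemma rc_pre {x : ℕ → ZMod 2} (hcc : CC x) {n : ℕ} (h : RC (S x) n) : RC x (n + 1) := by
  intro i
  obtain ⟨j, hj⟩ := h i
  -- `x (j + t) + x (i + n - t)` is constant
  have key : ∀ t < n + 1, x (j + t) + x (i + (n - t)) = x j + x (i + n) := by
    intro t
    induction t with
    | zero => intro _; simp
    | succ t ih =>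
      intro ht
      have h1 := ih (by omega)
      have h2 := hj t (by omega)
      unfold S at h2
      rw [show i + (n - 1 - t) + 1 = i + (n - t) by omega,
        show i + (n - 1 - t) = i + (n - (t + 1)) by omega] at h2
      rw [show j + (t + 1) = j + t + 1 by omega, ← h1]
      have : ∀ a b c d : ZMod 2, a + b = c + d → b + c = a + d := by decide
      exact this _ _ _ _ h2
  by_cases h0 : x j = x (i + n)
  · refine ⟨j, fun t ht => ?_⟩
    have h1 := key t ht
    rw [h0] at h1
    have : ∀ a b c : ZMod 2, a + b = c + c → a = b := by decide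
    exact this _ _ _ h1
  · obtain ⟨k, hk⟩ := hcc j (n + 1)
    refine ⟨k, fun t ht => ?_⟩
    have h1 := key t ht
    rw [hk t ht]
    have : ∀ a b c d : ZMod 2, a + b = c + d → c ≠ d → a + 1 = b := by decide
    exact this _ _ _ _ h1 h0

/-! ### counting -/

/-- the derivative of a finite word -/
def D (w : List (ZMod 2)) : List (ZMod 2) := List.zipWith (· + ·) w w.tail

lemma D_fac (x : ℕ → ZMod 2) (i n : ℕ) : D (fac x i (n + 1)) = fac (S x) i n := by
  unfold D
  rw [fac_cons, List.tail_cons]
  apply List.ext_getElem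
  · simp
  · intro t h1 h2
    have ht : t < n := by simpa using h2
    rw [List.getElem_zipWith, fac_getElem, fac_getElem]
    unfold S
    rcases t with _ | t
    · simp
    · simp only [List.getElem_cons_succ, fac_getElem]
      congr 1 <;> congr 1 <;> omega

/-- first letter and derivative -/
def Phi (w : List (ZMod 2)) : ZMod 2 × List (ZMod 2) := (w.headD 0, D w)

lemma Phi_fac (x : ℕ → ZMod 2) (i n : ℕ) : Phi (fac x i (n + 1)) = (x i, fac (S x) i n) := by
  unfold Phi
  rw [D_fac, fac_cons]
  rfl

lemma Phi_injOn (x : ℕ → ZMod 2) (n : ℕ) : Set.InjOn Phi (lang x (n + 1)) := by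
  rintro _ ⟨i, rfl⟩ _ ⟨j, rfl⟩ h
  rw [Phi_fac, Phi_fac, Prod.mk.injEq, fac_eq_iff] at h
  rw [fac_eq_iff]
  exact eq_of h.1 h.2

/-- transport of counts through `Phi` -/
lemma ncard_pre {x : ℕ → ZMod 2} (hcc : CC x) (n : ℕ) (A : Set (List (ZMod 2)))
    (B : Set (List (ZMod 2))) (hA : A ⊆ lang x (n + 1)) (hB : B ⊆ lang (S x) n)
    (h : ∀ i, fac x i (n + 1) ∈ A ↔ fac (S x) i n ∈ B) : A.ncard = 2 * B.ncard := by
  have himg : Phi '' A = (Set.univ : Set (ZMod 2)) ×ˢ B := by
    ext ⟨c, v⟩
    constructor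
    · rintro ⟨w, hw, hwv⟩
      obtain ⟨i, rfl⟩ := hA hw
      rw [Phi_fac] at hwv
      have := congrArg Prod.snd hwv
      simp only at this
      rw [Set.mem_prod]
      refine ⟨Set.mem_univ _, ?_⟩
      simp only
      rw [← this]
      exact (h i).mp hw
    · rintro ⟨_, hv⟩
      simp only at hv
      obtain ⟨i, rfl⟩ := hB hv
      by_cases hc : c = x i
      · exact ⟨fac x i (n + 1), (h i).mpr hv, by rw [Phi_fac, hc]⟩
      · obtain ⟨j, hj⟩ := hcc i (n + 1)
        have hfac : fac (S x) j n = fac (S x) i n := by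
          rw [fac_eq_iff]
          intro t ht
          unfold S
          rw [hj t (by omega), show j + t + 1 = j + (t + 1) by omega, hj (t + 1) (by omega),
            show i + t + 1 = i + (t + 1) by omega]
          have e : ∀ a b : ZMod 2, a + 1 + (b + 1) = a + b := by decide
          exact e _ _
        refine ⟨fac x j (n + 1), (h j).mpr (by rw [hfac]; exact hv), ?_⟩
        rw [Phi_fac, hfac]
        have := hj 0 (by omega)
        simp only [add_zero] at this
        rw [this, z_ne hc]
  rw [← ((Phi_injOn x n).mono hA).ncard_image, himg, Set.ncard_prod,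
    Set.ncard_univ]
  simp

lemma cpx_pre {x : ℕ → ZMod 2} (hcc : CC x) (n : ℕ) : cpx x (n + 1) = 2 * cpx (S x) n := by
  apply ncard_pre hcc n _ _ (le_refl _) (le_refl _)
  intro i
  exact ⟨fun _ => mem_lang_fac _ _ _, fun _ => mem_lang_fac _ _ _⟩

/-- the window at `i` of length `n` is an `E`-palindrome -/
def EPalAt (x : ℕ → ZMod 2) (i n : ℕ) : Prop := ∀ t < n, x (i + t) = x (i + (n - 1 - t)) + 1

lemma epalAt_iff {x : ℕ → ZMod 2} {i n : ℕ} : E (fac x i n) = fac x i n ↔ EPalAt x i n := by
  have h1 : (fac x i n).map (· + 1) = fac (fun k => x k + 1) i n := by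
    simp [fac]
  unfold E
  rw [h1, eq_comm, fac_eq_reverse_iff]
  rfl

/-- the sums `x_{i+t} + x_{i+n-t}` are constant iff the derivative is a palindrome -/
lemma palAt_S_iff {x : ℕ → ZMod 2} {i n : ℕ} : PalAt (S x) i n ↔
    ∀ t < n + 1, x (i + t) + x (i + (n - t)) = x i + x (i + n) := by
  constructor
  · intro h t
    induction t with
    | zero => intro _; simp
    | succ t ih =>
      intro ht
      have h1 := ih (by omega)
      have h2 := h t (by omega)
      unfold S at h2
      rw [show i + (n - 1 - t) + 1 = i + (n - t) by omega,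
        show i + (n - 1 - t) = i + (n - (t + 1)) by omega] at h2
      rw [show i + (t + 1) = i + t + 1 by omega, ← h1]
      have : ∀ a b c d : ZMod 2, a + b = c + d → b + c = a + d := by decide
      exact this _ _ _ _ h2
  · intro h t ht
    have h1 := h t (by omega)
    have h2 := h (t + 1) (by omega)
    rw [← h1] at h2
    unfold S
    rw [show i + (n - 1 - t) + 1 = i + (n - t) by omega,
      show i + (n - 1 - t) = i + (n - (t + 1)) by omega,
      show i + t + 1 = i + (t + 1) by omega]
    have : ∀ a b c d : ZMod 2, b + c = a + d → a + b = c + d := by decide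
    exact this _ _ _ _ h2

lemma pal_or_epal {x : ℕ → ZMod 2} {i n : ℕ} :
    (PalAt x i (n + 1) ∨ EPalAt x i (n + 1)) ↔ PalAt (S x) i n := by
  rw [palAt_S_iff]
  constructor
  · rintro (h | h) t ht
    · have h1 := h t ht
      have h2 := h 0 (by omega)
      simp only [add_zero] at h2
      rw [show n + 1 - 1 - t = n - t by omega] at h1
      rw [show n + 1 - 1 - 0 = n by omega] at h2
      rw [h1, h2, z_add_self, z_add_self]
    · have h1 := h t ht
      have h2 := h 0 (by omega)
      simp only [add_zero] at h2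
      rw [show n + 1 - 1 - t = n - t by omega] at h1
      rw [show n + 1 - 1 - 0 = n by omega] at h2
      rw [h1, h2]
      have : ∀ a b : ZMod 2, a + 1 + a = b + 1 + b := by decide
      exact this _ _
  · intro h
    by_cases h0 : x i = x (i + n)
    · left
      intro t ht
      have h1 := h t ht
      rw [h0] at h1
      rw [show n + 1 - 1 - t = n - t by omega]
      have : ∀ a b c : ZMod 2, a + b = c + c → a = b := by decide
      exact this _ _ _ h1
    · right
      intro t ht
      have h1 := h t ht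
      rw [show n + 1 - 1 - t = n - t by omega]
      have : ∀ a b c d : ZMod 2, a + b = c + d → c ≠ d → a = b + 1 := by decide
      exact this _ _ _ _ h1 h0

lemma not_pal_and_epal {x : ℕ → ZMod 2} {i n : ℕ} (h1 : PalAt x i (n + 1))
    (h2 : EPalAt x i (n + 1)) : False := by
  have h3 := h1 0 (by omega)
  have h4 := h2 0 (by omega)
  rw [h3] at h4
  have : ∀ a : ZMod 2, a ≠ a + 1 := by decide
  exact this _ h4

lemma pal_add_epal {x : ℕ → ZMod 2} (hcc : CC x) (n : ℕ) :
    pal x (n + 1) + epal x (n + 1) = 2 * pal (S x) n := by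
  have hdisj : Disjoint {w ∈ lang x (n + 1) | w.reverse = w} {w ∈ lang x (n + 1) | E w = w} := by
    rw [Set.disjoint_left]
    rintro w ⟨⟨i, rfl⟩, h1⟩ ⟨_, h2⟩
    exact not_pal_and_epal (palAt_iff.mp h1) (epalAt_iff.mp h2)
  have hf1 : {w ∈ lang x (n + 1) | w.reverse = w}.Finite :=
    (lang_finite x _).subset (fun w hw => hw.1)
  have hf2 : {w ∈ lang x (n + 1) | E w = w}.Finite :=
    (lang_finite x _).subset (fun w hw => hw.1)
  unfold pal epal
  rw [← Set.ncard_union_eq hdisj hf1 hf2]
  apply ncard_pre hcc n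
  · rintro w (hw | hw)
    · exact hw.1
    · exact hw.1
  · exact fun w hw => hw.1
  · intro i
    constructor
    · intro h
      refine ⟨mem_lang_fac _ _ _, ?_⟩
      rw [palAt_iff, ← pal_or_epal]
      rcases h with h | h
      · left; exact palAt_iff.mp h.2
      · right; exact epalAt_iff.mp h.2
    · rintro ⟨_, h⟩
      rw [palAt_iff, ← pal_or_epal] at h
      rcases h with h | h
      · left; exact ⟨mem_lang_fac _ _ _, palAt_iff.mpr h⟩
      · right; exact ⟨mem_lang_fac _ _ _, epalAt_iff.mpr h⟩

lemma pal_odd_pre {x : ℕ → ZMod 2} (hcc : CC x) (m : ℕ) :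
    pal x (2 * m + 1) = 2 * pal (S x) (2 * m) := by
  unfold pal
  apply ncard_pre hcc (2 * m) _ _ (fun w hw => hw.1) (fun w hw => hw.1)
  intro i
  constructor
  · rintro ⟨_, h⟩
    exact ⟨mem_lang_fac _ _ _, palAt_iff.mpr (pal_or_epal.mp (Or.inl (palAt_iff.mp h)))⟩
  · rintro ⟨_, h⟩
    refine ⟨mem_lang_fac _ _ _, palAt_iff.mpr ?_⟩
    rcases pal_or_epal.mpr (palAt_iff.mp h) with h1 | h1
    · exact h1
    · exfalso
      have := h1 m (by omega)
      rw [show i + (2 * m + 1 - 1 - m) = i + m by omega] at this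
      have e : ∀ a : ZMod 2, a ≠ a + 1 := by decide
      exact e _ this

lemma pal_even_pre {x : ℕ → ZMod 2} (hcc : CC x) (m : ℕ) :
    pal x (2 * m + 2) = 2 * palMid (S x) m 0 := by
  unfold pal palMid
  apply ncard_pre hcc (2 * m + 1) _ _ (fun w hw => hw.1) (fun w hw => hw.1)
  intro i
  constructor
  · rintro ⟨_, h⟩
    have h1 := palAt_iff.mp h
    refine ⟨mem_lang_fac _ _ _, palAt_iff.mpr (pal_or_epal.mp (Or.inl h1)), ?_⟩
    rw [fac_getElem? _ _ _ _ (by omega)]
    congr 1
    have h2 := h1 m (by omega)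
    rw [show i + (2 * m + 1 + 1 - 1 - m) = i + m + 1 by omega] at h2
    unfold S
    rw [h2, z_add_self]
  · rintro ⟨_, h, hmid⟩
    refine ⟨mem_lang_fac _ _ _, palAt_iff.mpr ?_⟩
    rw [fac_getElem? _ _ _ _ (by omega)] at hmid
    have hmid' := Option.some_injective _ hmid
    rcases pal_or_epal.mpr (palAt_iff.mp h) with h1 | h1
    · exact h1
    · exfalso
      have h2 := h1 m (by omega)
      rw [show i + (2 * m + 1 + 1 - 1 - m) = i + m + 1 by omega] at h2
      unfold S at hmid'
      rw [h2] at hmid'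
      have e : ∀ a : ZMod 2, a + 1 + a ≠ 0 := by decide
      exact e _ hmid'

lemma palMid_cc {y : ℕ → ZMod 2} (hcc : CC y) (m : ℕ) : palMid y m 1 = palMid y m 0 := by
  have hle : ∀ c, palMid y m c ≤ palMid y m (c + 1) := by
    intro c
    unfold palMid
    have hinj : Function.Injective (fun w : List (ZMod 2) => w.map (· + 1)) := by
      apply List.map_injective_iff.mpr
      intro a b h
      simpa using h
    rw [← Set.ncard_image_of_injective _ hinj]
    apply Set.ncard_le_ncard
    · rintro _ ⟨w, ⟨⟨i, rfl⟩, hw, hc⟩, rfl⟩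
      obtain ⟨j, hj⟩ := hcc i (2 * m + 1)
      have hmap : (fac y i (2 * m + 1)).map (· + 1) = fac y j (2 * m + 1) := by
        rw [show (fac y i (2 * m + 1)).map (· + 1) = fac (fun k => y k + 1) i (2 * m + 1) by
          simp [fac], fac_eq_iff]
        intro t ht
        exact (hj t ht).symm
      simp only
      refine ⟨?_, ?_, ?_⟩
      · rw [hmap]; exact mem_lang_fac _ _ _
      · rw [← List.map_reverse, hw]
      · rw [List.getElem?_map, hc]
        rfl
    · exact (lang_finite y _).subset (fun w hw => hw.1)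
  have h1 := hle 0
  have h2 := hle 1
  simp only [zero_add] at h1
  rw [show (1 : ZMod 2) + 1 = 0 by decide] at h2
  omega

lemma pal_even_pre' {x : ℕ → ZMod 2} (hcc : CC x) (hcc' : CC (S x)) (m : ℕ) :
    pal x (2 * m + 2) = pal (S x) (2 * m + 1) := by
  rw [pal_even_pre hcc, pal_odd_eq, palMid_cc hcc']
  ring

end Pool.Agent.H57.RW
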