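import Mathlib
import Pool.Agent.H57.RW.Pre

/-!
If `C(n+1) - C(n) + 2 = P(n) + P(n+1)` for all `n ≥ 1` then the word is rich.
-/

namespace Pool.Agent.H57.RW

open Finset

/-- class of a word up to reversal -/
def cls (w : List (ZMod 2)) : Sym2 (List (ZMod 2)) := s(w, w.reverse)

lemma cls_eq_iff {v w : List (ZMod 2)} : cls v = cls w ↔ v = w ∨ v = w.reverse := by
  unfold cls
  rw [Sym2.eq_iff]
  constructor
  · rintro (⟨h, _⟩ | ⟨h, _⟩)
    · exact Or.inl h
    · exact Or.inr h
  · rintro (h | h)
    · left; exact ⟨h, by rw [h]⟩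
    · right; exact ⟨h, by rw [h, List.reverse_reverse]⟩

lemma cls_reverse (w : List (ZMod 2)) : cls w.reverse = cls w := cls_eq_iff.mpr (Or.inr rfl)

/-- counting classes -/
lemma two_mul_card_cls (A : Finset (List (ZMod 2))) (hA : ∀ w ∈ A, w.reverse ∈ A) :
    2 * (A.image cls).card = A.card + (A.filter (fun w => w.reverse = w)).card := by
  classical
  have h1 : A.card = ∑ c ∈ A.image cls, (A.filter (fun w => cls w = c)).card :=
    Finset.card_eq_sum_card_fiberwise (fun w hw => Finset.mem_coe.mpr (Finset.mem_image_of_mem _ hw))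
  have h2 : (A.filter (fun w => w.reverse = w)).card =
      ∑ c ∈ A.image cls, ((A.filter (fun w => w.reverse = w)).filter (fun w => cls w = c)).card :=
    Finset.card_eq_sum_card_fiberwise (fun w hw => Finset.mem_coe.mpr
      (Finset.mem_image_of_mem _ (Finset.mem_filter.mp hw).1))
  rw [h1, h2, ← Finset.sum_add_distrib, mul_comm, ← smul_eq_mul, ← Finset.sum_const]
  apply Finset.sum_congr rfl
  intro c hc
  obtain ⟨w, hw, rfl⟩ := Finset.mem_image.mp hc
  have hf : A.filter (fun v => cls v = cls w) = {w, w.reverse} := by
    ext v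
    simp only [Finset.mem_filter, Finset.mem_insert, Finset.mem_singleton, cls_eq_iff]
    constructor
    · exact fun h => h.2
    · rintro (rfl | rfl)
      · exact ⟨hw, Or.inl rfl⟩
      · exact ⟨hA w hw, Or.inr rfl⟩
  by_cases hp : w.reverse = w
  · have hf2 : (A.filter (fun w => w.reverse = w)).filter (fun v => cls v = cls w) = {w} := by
      ext v
      simp only [Finset.mem_filter, Finset.mem_singleton, cls_eq_iff, hp, or_self]
      constructor
      · exact fun h => h.2
      · rintro rfl
        exact ⟨⟨hw, hp⟩, rfl⟩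
    rw [hf, hf2, hp]
    simp
  · have hf2 : (A.filter (fun w => w.reverse = w)).filter (fun v => cls v = cls w) = ∅ := by
      rw [Finset.filter_eq_empty_iff]
      intro v hv hvw
      have hv' := (Finset.mem_filter.mp hv).2
      rcases cls_eq_iff.mp hvw with h | h
      · rw [h] at hv'; exact hp hv'
      · rw [h, List.reverse_reverse] at hv'; exact hp hv'.symm
    rw [hf, hf2, Finset.card_pair (Ne.symm hp)]
    simp

/-- endpoints of an edge -/
def psi (e : List (ZMod 2)) : Sym2 (Sym2 (List (ZMod 2))) := s(cls e.dropLast, cls e.tail)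

lemma psi_reverse (e : List (ZMod 2)) : psi e.reverse = psi e := by
  unfold psi
  have h1 : e.reverse.dropLast = e.tail.reverse := by
    rw [List.dropLast_reverse]
  have h2 : e.reverse.tail = e.dropLast.reverse := by
    rw [List.tail_reverse]
  rw [h1, h2, cls_reverse, cls_reverse, Sym2.eq_swap]

lemma psi_congr {e e' : List (ZMod 2)} (h : cls e = cls e') : psi e = psi e' := by
  rcases cls_eq_iff.mp h with h | h
  · rw [h]
  · rw [h, psi_reverse]

lemma psi_fac (x : ℕ → ZMod 2) (i n : ℕ) :
    psi (fac x i (n + 1)) = s(cls (fac x i n), cls (fac x (i + 1) n)) := by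
  unfold psi
  have h1 : (fac x i (n + 1)).dropLast = fac x i n := by rw [fac_succ, List.dropLast_concat]
  have h2 : (fac x i (n + 1)).tail = fac x (i + 1) n := by rw [fac_cons, List.tail_cons]
  rw [h1, h2]

lemma reversal_mem {x : ℕ → ZMod 2} {n : ℕ} (h : RC x n) {w : List (ZMod 2)} (hw : w ∈ lang x n) :
    w.reverse ∈ lang x n := by
  obtain ⟨i, rfl⟩ := hw
  obtain ⟨j, hj⟩ := h i
  exact ⟨j, (fac_eq_reverse_iff.mpr hj).symm⟩

/-- The key property: between two consecutive occurrences of a factor or its reversal we leave
and come back in a symmetric way. -/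
theorem return_sym {x : ℕ → ZMod 2} {n : ℕ} (hRC : RC x n) (hRC' : RC x (n + 1))
    (heq : cpx x (n + 1) + 2 = cpx x n + pal x n + pal x (n + 1))
    {i j : ℕ} (hij : i < j) (hcls : cls (fac x i n) = cls (fac x j n))
    (hbetween : ∀ k, i < k → k < j → cls (fac x k n) ≠ cls (fac x i n)) :
    fac x (j - 1) (n + 1) = (fac x i (n + 1)).reverse := by
  classical
  -- finite sets of factors
  set A := (lang_finite x n).toFinset with hA
  set B := (lang_finite x (n + 1)).toFinset with hB
  have hmemA : ∀ k, fac x k n ∈ A := fun k => by rw [hA, Set.Finite.mem_toFinset]; exact ⟨k, rfl⟩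
  have hmemB : ∀ k, fac x k (n + 1) ∈ B := fun k => by
    rw [hB, Set.Finite.mem_toFinset]; exact ⟨k, rfl⟩
  have hArev : ∀ w ∈ A, w.reverse ∈ A := by
    intro w hw
    rw [hA, Set.Finite.mem_toFinset] at hw ⊢
    exact reversal_mem hRC hw
  have hBrev : ∀ w ∈ B, w.reverse ∈ B := by
    intro w hw
    rw [hB, Set.Finite.mem_toFinset] at hw ⊢
    exact reversal_mem hRC' hw
  have hcA : A.card = cpx x n := by
    unfold cpx; rw [hA, Set.ncard_eq_toFinset_card _ (lang_finite x n)]
  have hcB : B.card = cpx x (n + 1) := by
    unfold cpx; rw [hB, Set.ncard_eq_toFinset_card _ (lang_finite x (n + 1))]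
  have hpA : (A.filter (fun w => w.reverse = w)).card = pal x n := by
    unfold pal
    rw [← Set.ncard_coe_finset]
    congr 1
    ext w
    simp [hA]
  have hpB : (B.filter (fun w => w.reverse = w)).card = pal x (n + 1) := by
    unfold pal
    rw [← Set.ncard_coe_finset]
    congr 1
    ext w
    simp [hB]
  set B' := B.filter (fun w => ¬ w.reverse = w) with hB'
  have hB'rev : ∀ w ∈ B', w.reverse ∈ B' := by
    intro w hw
    rw [hB', Finset.mem_filter] at hw ⊢
    refine ⟨hBrev w hw.1, ?_⟩
    rw [List.reverse_reverse]
    exact fun h => hw.2 h.symm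
  have hcountA := two_mul_card_cls A hArev
  have hcountB := two_mul_card_cls B' hB'rev
  have hB'pal : (B'.filter (fun w => w.reverse = w)) = ∅ := by
    rw [Finset.filter_eq_empty_iff]
    intro w hw
    exact (Finset.mem_filter.mp hw).2
  have hBB' : B'.card + pal x (n + 1) = cpx x (n + 1) := by
    have := Finset.card_filter_add_card_filter_not (s := B) (fun w => w.reverse = w)
    rw [hpB, hcB] at this
    rw [hB', ← this]
    ring
  rw [hB'pal, Finset.card_empty] at hcountB
  rw [hcA, hpA] at hcountA
  have hcount : (B'.image cls).card + 1 = (A.image cls).card := by omega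
  -- the graph
  let V := {c : Sym2 (List (ZMod 2)) // c ∈ A.image cls}
  let vtx : ℕ → V := fun k => ⟨cls (fac x k n), Finset.mem_image_of_mem _ (hmemA k)⟩
  have hvtx : ∀ v : V, ∃ k, v = vtx k := by
    rintro ⟨c, hc⟩
    obtain ⟨w, hw, rfl⟩ := Finset.mem_image.mp hc
    rw [hA, Set.Finite.mem_toFinset] at hw
    obtain ⟨k, rfl⟩ := hw
    exact ⟨k, rfl⟩
  let G : SimpleGraph V := SimpleGraph.fromRel (fun a b => ∃ k, a = vtx k ∧ b = vtx (k + 1))
  have hadj : ∀ k, vtx k ≠ vtx (k + 1) → G.Adj (vtx k) (vtx (k + 1)) := by
    intro k hk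
    rw [SimpleGraph.fromRel_adj]
    exact ⟨hk, Or.inl ⟨k, rfl, rfl⟩⟩
  have hreach : ∀ k, G.Reachable (vtx 0) (vtx k) := by
    intro k
    induction k with
    | zero => exact SimpleGraph.Reachable.refl _
    | succ k ih =>
      by_cases h : vtx k = vtx (k + 1)
      · rw [← h]; exact ih
      · exact ih.trans (hadj k h).reachable
  have hconn : G.Connected := by
    rw [SimpleGraph.connected_iff]
    refine ⟨?_, ⟨vtx 0⟩⟩
    intro a b
    obtain ⟨k, rfl⟩ := hvtx a
    obtain ⟨l, rfl⟩ := hvtx b
    exact (hreach k).symm.trans (hreach l)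
  have hnonpal : ∀ k, vtx k ≠ vtx (k + 1) → fac x k (n + 1) ∈ B' := by
    intro k hk
    rw [hB', Finset.mem_filter]
    refine ⟨hmemB k, fun hp => hk ?_⟩
    apply Subtype.ext
    change cls (fac x k n) = cls (fac x (k + 1) n)
    rw [cls_eq_iff]
    right
    rw [fac_eq_reverse_iff]
    intro t ht
    have := palAt_iff.mp hp t (by omega)
    rw [this]
    congr 1
    omega
  have hedge : (fun e : Sym2 V => Sym2.map Subtype.val e) '' G.edgeSet ⊆
      ((B'.image psi : Finset _) : Set (Sym2 (Sym2 (List (ZMod 2))))) := by
    rintro _ ⟨e, he, rfl⟩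
    induction e with
    | h a b =>
      rw [SimpleGraph.mem_edgeSet, SimpleGraph.fromRel_adj] at he
      obtain ⟨hne, ⟨k, rfl, rfl⟩ | ⟨k, rfl, rfl⟩⟩ := he
      · rw [Finset.mem_coe, Finset.mem_image]
        exact ⟨fac x k (n + 1), hnonpal k hne, by rw [psi_fac]; rfl⟩
      · rw [Finset.mem_coe, Finset.mem_image]
        refine ⟨fac x k (n + 1), hnonpal k (Ne.symm hne), ?_⟩
        rw [psi_fac, Sym2.eq_swap]
        rfl
  have hmapinj : Function.Injective (fun e : Sym2 V => Sym2.map Subtype.val e) :=
    Sym2.map.injective Subtype.val_injective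
  have hE : Nat.card G.edgeSet ≤ (B'.image psi).card := by
    rw [← Set.ncard_coe_finset, Nat.card_coe_set_eq, ← Set.ncard_image_of_injective _ hmapinj]
    exact Set.ncard_le_ncard hedge (Finset.finite_toSet _)
  -- psi factors through cls
  let psibar : Sym2 (List (ZMod 2)) → Sym2 (Sym2 (List (ZMod 2))) := fun c =>
    if h : ∃ e, cls e = c then psi h.choose else s(c, c)
  have hpsibar : ∀ e, psibar (cls e) = psi e := by
    intro e
    have h : ∃ e', cls e' = cls e := ⟨e, rfl⟩
    simp only [psibar, h, dif_pos]
    exact psi_congr h.choose_spec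
  have himg : (B'.image cls).image psibar = B'.image psi := by
    rw [Finset.image_image]
    apply Finset.image_congr
    intro e _
    exact hpsibar e
  have hV : Nat.card V = (A.image cls).card := by
    rw [Nat.card_eq_fintype_card, Fintype.card_coe]
  have h1 := hconn.card_vert_le_card_edgeSet_add_one
  have h2 : (B'.image psi).card ≤ (B'.image cls).card := by
    rw [← himg]; exact Finset.card_image_le
  have htree : G.IsTree := by
    rw [SimpleGraph.isTree_iff_connected_and_card]
    refine ⟨hconn, ?_⟩
    omega
  have hinj : Set.InjOn psibar (B'.image cls : Finset _) := by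
    rw [← Finset.card_image_iff, himg]
    omega
  have hpsi_inj : ∀ e ∈ B', ∀ e' ∈ B', psi e = psi e' → cls e = cls e' := by
    intro e he e' he' h
    apply hinj (Finset.mem_coe.mpr (Finset.mem_image_of_mem _ he))
      (Finset.mem_coe.mpr (Finset.mem_image_of_mem _ he'))
    rw [hpsibar, hpsibar, h]
  -- the two cases
  have hvij : vtx i = vtx j := Subtype.ext hcls
  rcases Nat.lt_or_ge (i + 1) j with hj | hj
  · have hne0 : vtx (i + 1) ≠ vtx i := fun h =>
      hbetween (i + 1) (by omega) hj (congrArg Subtype.val h)
    have hbr := (SimpleGraph.isAcyclic_iff_forall_adj_isBridge.mp htree.isAcyclic)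
      (hadj i (Ne.symm hne0))
    rw [SimpleGraph.isBridge_iff] at hbr
    have hlast : vtx (j - 1) = vtx (i + 1) := by
      by_contra hcon
      apply hbr
      have hr : ∀ k, i + 1 + k ≤ j →
          (G.deleteEdges {s(vtx i, vtx (i + 1))}).Reachable (vtx (i + 1)) (vtx (i + 1 + k)) := by
        intro k
        induction k with
        | zero => intro _; exact SimpleGraph.Reachable.refl _
        | succ k ih =>
          intro hk
          have ih' := ih (by omega)
          by_cases h : vtx (i + 1 + k) = vtx (i + 1 + (k + 1))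
          · rw [← h]; exact ih'
          · refine ih'.trans (SimpleGraph.Adj.reachable ?_)
            rw [SimpleGraph.deleteEdges_adj]
            refine ⟨hadj (i + 1 + k) h, ?_⟩
            rw [Set.mem_singleton_iff, Sym2.eq_iff]
            rintro (⟨h3, _⟩ | ⟨h3, h4⟩)
            · exact hbetween (i + 1 + k) (by omega) (by omega) (congrArg Subtype.val h3)
            · by_cases hkj : i + 1 + (k + 1) = j
              · apply hcon
                rw [show j - 1 = i + 1 + k by omega]
                exact h3
              · exact hbetween (i + 1 + (k + 1)) (by omega) (by omega)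
                  (congrArg Subtype.val h4)
      have := hr (j - (i + 1)) (by omega)
      rw [show i + 1 + (j - (i + 1)) = j by omega, ← hvij] at this
      exact this.symm
    have hnej : vtx (j - 1) ≠ vtx (j - 1 + 1) := by
      rw [show j - 1 + 1 = j by omega, hlast, ← hvij]
      exact hne0
    have he1 := hnonpal i (Ne.symm hne0)
    have he2 := hnonpal (j - 1) hnej
    have hpsi : psi (fac x (j - 1) (n + 1)) = psi (fac x i (n + 1)) := by
      rw [psi_fac, psi_fac]
      have e1 : cls (fac x (j - 1) n) = cls (fac x (i + 1) n) := congrArg Subtype.val hlast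
      rw [show j - 1 + 1 = j by omega, e1, ← hcls, Sym2.eq_swap]
    rcases cls_eq_iff.mp (hpsi_inj _ he2 _ he1 hpsi) with h | h
    · exfalso
      apply hbetween (j - 1) (by omega) (by omega)
      have : fac x (j - 1) n = fac x i n := by
        rw [fac_eq_iff] at h ⊢
        exact fun t ht => h t (by omega)
      rw [this]
    · exact h
  · have hj' : j = i + 1 := by omega
    subst hj'
    rw [show i + 1 - 1 = i by omega]
    rcases cls_eq_iff.mp hcls with h | h
    · rw [fac_eq_iff] at h
      rw [fac_eq_reverse_iff]
      have hconst : ∀ t, t < n + 1 → x (i + t) = x i := by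
        intro t
        induction t with
        | zero => intro _; rfl
        | succ t ih =>
          intro ht
          rw [← ih (by omega), h t (by omega)]
          congr 1
          omega
      intro t ht
      rw [hconst t ht, hconst _ (by omega)]
    · rw [fac_eq_reverse_iff] at h
      rw [fac_eq_reverse_iff]
      intro t ht
      rcases Nat.lt_or_ge t n with h3 | h3
      · rw [h t h3]
        congr 1
        omega
      · have ht' : t = n := by omega
        subst ht'
        rcases Nat.eq_zero_or_pos t with h0 | h0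
        · subst h0; rfl
        · have h4 := h 0 h0
          rw [show i + (t + 1 - 1 - t) = i + 0 by omega, h4]
          congr 1
          omega

end Pool.Agent.H57.RW
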