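import Mathlib
import Pool.Agent.H57.RW.Rich

/-!
Richness in the classical sense: from the equality of complexities, and its failure for
third preimages.
-/

namespace Pool.Agent.H57.RW

open Finset

/-- `x` is `R`-rich: every factor of length `n` contains exactly `n + 1` distinct palindromes,
the empty word included. -/
def RRich (x : ℕ → ZMod 2) : Prop :=
  ∀ i n, {p : List (ZMod 2) | p <:+: fac x i n ∧ p.reverse = p}.ncard = n + 1

lemma infix_fac_iff {x : ℕ → ZMod 2} {i n : ℕ} {p : List (ZMod 2)} :
    p <:+: fac x i n ↔ ∃ k m, i ≤ k ∧ k + m ≤ i + n ∧ p = fac x k m := by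
  constructor
  · rintro ⟨s, t, hst⟩
    have hlen := congrArg List.length hst
    simp only [List.length_append, fac_length] at hlen
    refine ⟨i + s.length, p.length, by omega, by omega, ?_⟩
    apply List.ext_getElem
    · simp
    · intro r h1 h2
      rw [fac_getElem]
      have h3 : (s ++ p ++ t)[s.length + r]'(by simp; omega) = p[r] := by
        rw [List.getElem_append_left (by simp; omega), List.getElem_append_right (by omega)]
        congr 1
        omega
      rw [← h3]
      have h4 : (s ++ p ++ t)[s.length + r]'(by simp; omega) =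
          (fac x i n)[s.length + r]'(by simp; omega) := by
        simp only [hst]
      rw [h4, fac_getElem]
      congr 1
      omega
  · rintro ⟨k, m, h1, h2, rfl⟩
    refine ⟨fac x i (k - i), fac x (k + m) (i + n - (k + m)), ?_⟩
    apply List.ext_getElem
    · simp; omega
    · intro r h3 h4
      rw [fac_getElem]
      by_cases h5 : r < k - i
      · rw [List.getElem_append_left (by simp; omega), List.getElem_append_left (by simpa using h5),
          fac_getElem]
      · by_cases h6 : r < k - i + m
        · rw [List.getElem_append_left (by simp; omega),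
            List.getElem_append_right (by simp; omega), fac_getElem]
          congr 1
          simp
          omega
        · rw [List.getElem_append_right (by simp; omega), fac_getElem]
          congr 1
          simp
          omega

/-- complete returns to palindromes are palindromes -/
lemma return_pal {x : ℕ → ZMod 2} (hRC : ∀ n, RC x n)
    (heq : ∀ n, 1 ≤ n → cpx x (n + 1) + 2 = cpx x n + pal x n + pal x (n + 1))
    {i j n : ℕ} (hn : 1 ≤ n) (hij : i < j) (hpal : PalAt x i n) (hfac : fac x i n = fac x j n)
    (hbetween : ∀ k, i < k → k < j → fac x k n ≠ fac x i n) : PalAt x i (j - i + n) := by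
  have claim : ∀ d, n + d ≤ j + n - i → ∀ t < n + d, x (i + t) = x (j + n - 1 - t) := by
    intro d
    induction d with
    | zero =>
      intro _ t ht
      rw [hpal t (by omega), fac_eq_iff.mp hfac _ (by omega)]
      congr 1
      omega
    | succ d ih =>
      intro hd t ht
      have ih' := ih (by omega)
      rcases Nat.lt_or_ge t (n + d) with h1 | h1
      · exact ih' t h1
      · have ht' : t = n + d := by omega
        subst ht'
        -- apply `return_sym` at length `n + d`
        have hrev : fac x (j - d) (n + d) = (fac x i (n + d)).reverse := by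
          rw [fac_eq_reverse_iff]
          intro t ht
          rw [ih' (n + d - 1 - t) (by omega)]
          congr 1
          omega
        have h2 := return_sym (hRC (n + d)) (hRC (n + d + 1)) (heq (n + d) (by omega))
          (i := i) (j := j - d) (by omega) (by rw [hrev, cls_reverse]) (by
            intro k hk1 hk2 hk3
            rcases cls_eq_iff.mp hk3 with h | h
            · apply hbetween k hk1 (by omega)
              rw [fac_eq_iff] at h ⊢
              exact fun t ht => h t (by omega)
            · apply hbetween (k + d) (by omega) (by omega)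
              rw [fac_eq_reverse_iff] at h
              rw [fac_eq_iff]
              intro t ht
              have h3 := h (d + t) (by omega)
              rw [show k + d + t = k + (d + t) by omega, h3, hpal t (by omega)]
              congr 1
              omega)
        rw [fac_eq_reverse_iff] at h2
        have h3 := h2 0 (by omega)
        rw [show j + n - 1 - (n + d) = j - d - 1 + 0 by omega, h3]
        congr 1
  intro t ht
  have := claim (j - i) (by omega) t (by omega)
  rw [this]
  congr 1
  omega

theorem rich_of_eq {x : ℕ → ZMod 2} (hRC : ∀ n, RC x n)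
    (heq : ∀ n, 1 ≤ n → cpx x (n + 1) + 2 = cpx x n + pal x n + pal x (n + 1)) : RRich x := by
  classical
  intro i n
  induction n with
  | zero =>
    have : {p : List (ZMod 2) | p <:+: fac x i 0 ∧ p.reverse = p} = {[]} := by
      ext p
      simp only [Set.mem_ofPred_eq, Set.mem_singleton_iff]
      constructor
      · rintro ⟨h, _⟩
        simpa [fac] using h
      · rintro rfl
        simp [fac]
    rw [this, Set.ncard_singleton]
  | succ n ih =>
    -- the longest palindromic suffix
    have hex : ∃ j, i ≤ j ∧ j ≤ i + n ∧ PalAt x j (i + n + 1 - j) :=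
      ⟨i + n, by omega, le_rfl, by intro t ht; congr 1; omega⟩
    set j := Nat.find hex with hj
    obtain ⟨hj1, hj2, hj3⟩ := Nat.find_spec hex
    have hjmin : ∀ k, i ≤ k → k < j → ¬ PalAt x k (i + n + 1 - k) := by
      intro k hk1 hk2 hk3
      exact Nat.find_min hex hk2 ⟨hk1, by omega, hk3⟩
    rw [← hj] at hj1 hj2 hj3
    set M := i + n + 1 - j with hM
    set q := fac x j M with hq
    have hqpal : q.reverse = q := palAt_iff.mpr hj3
    have hqnot : q ∉ {p : List (ZMod 2) | p <:+: fac x i n ∧ p.reverse = p} := by
      rintro ⟨h, _⟩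
      obtain ⟨k, m, h1, h2, h3⟩ := infix_fac_iff.mp h
      have hmM : m = M := by
        have := congrArg List.length h3
        simpa [hq] using this.symm
      subst hmM
      -- the last occurrence before `j`
      have hfin : ∃ k', k' < j ∧ i ≤ k' ∧ fac x k' M = q ∧
          ∀ l, k' < l → l < j → fac x l M ≠ q := by
        have hne : ((Finset.range j).filter (fun k => i ≤ k ∧ fac x k M = q)).Nonempty :=
          ⟨k, by rw [Finset.mem_filter, Finset.mem_range]; exact ⟨by omega, h1, h3.symm⟩⟩
        refine ⟨((Finset.range j).filter (fun k => i ≤ k ∧ fac x k M = q)).max' hne,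
          ?_, ?_, ?_, ?_⟩
        · exact Finset.mem_range.mp (Finset.mem_filter.mp (Finset.max'_mem _ hne)).1
        · exact (Finset.mem_filter.mp (Finset.max'_mem _ hne)).2.1
        · exact (Finset.mem_filter.mp (Finset.max'_mem _ hne)).2.2
        · intro l hl1 hl2 hl3
          have hl : l ∈ (Finset.range j).filter (fun k => i ≤ k ∧ fac x k M = q) := by
            rw [Finset.mem_filter, Finset.mem_range]
            refine ⟨hl2, ?_, hl3⟩
            have := (Finset.mem_filter.mp (Finset.max'_mem _ hne)).2.1
            omega
          have := Finset.le_max' _ l hl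
          omega
      obtain ⟨k', hk1, hk2, hk3, hk4⟩ := hfin
      have hp : PalAt x k' M := palAt_iff.mp (by rw [hk3]; exact hqpal)
      have := return_pal hRC heq (by omega) hk1 hp hk3 (by
        intro l hl1 hl2
        rw [hk3]
        exact hk4 l hl1 hl2)
      rw [show j - k' + M = i + n + 1 - k' by omega] at this
      exact hjmin k' hk2 hk1 this
    have hset : {p : List (ZMod 2) | p <:+: fac x i (n + 1) ∧ p.reverse = p} =
        insert q {p : List (ZMod 2) | p <:+: fac x i n ∧ p.reverse = p} := by
      ext p
      simp only [Set.mem_insert_iff, Set.mem_ofPred_eq]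
      constructor
      · rintro ⟨h, hp⟩
        obtain ⟨k, m, h1, h2, rfl⟩ := infix_fac_iff.mp h
        by_cases h3 : k + m ≤ i + n
        · right
          exact ⟨infix_fac_iff.mpr ⟨k, m, h1, h3, rfl⟩, hp⟩
        · have h4 : k + m = i + n + 1 := by omega
          rcases Nat.eq_zero_or_pos m with h0 | h0
          · right
            subst h0
            exact ⟨by simp [fac], hp⟩
          · have hpk : PalAt x k (i + n + 1 - k) := by
              rw [show i + n + 1 - k = m by omega]
              exact palAt_iff.mp hp
            rcases Nat.lt_trichotomy k j with h5 | h5 | h5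
            · exact absurd hpk (hjmin k h1 h5)
            · left
              rw [hq, h5, show m = M by omega]
            · right
              refine ⟨infix_fac_iff.mpr ⟨j, m, hj1, by omega, ?_⟩, hp⟩
              rw [fac_eq_iff]
              intro t ht
              have h6 := hpk t (by omega)
              have h7 := hj3 t (by omega)
              rw [h6, h7]
              congr 1
              omega
      · rintro (rfl | ⟨h, hp⟩)
        · exact ⟨infix_fac_iff.mpr ⟨j, M, hj1, by omega, rfl⟩, hqpal⟩
        · obtain ⟨k, m, h1, h2, rfl⟩ := infix_fac_iff.mp h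
          exact ⟨infix_fac_iff.mpr ⟨k, m, h1, by omega, rfl⟩, hp⟩
    have hfinite : {p : List (ZMod 2) | p <:+: fac x i n ∧ p.reverse = p}.Finite := by
      apply Set.finite_of_ncard_ne_zero
      rw [ih]
      omega
    rw [hset, Set.ncard_insert_of_notMem hqnot hfinite, ih]

/-- In a rich word, the factor between consecutive occurrences of `v` or its reversal is a
palindrome. -/
lemma rich_return {x : ℕ → ZMod 2} (h : RRich x) {i j n : ℕ} (hij : i < j)
    (hcls : cls (fac x i n) = cls (fac x j n))
    (hbetween : ∀ k, i < k → k < j → cls (fac x k n) ≠ cls (fac x i n)) :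
    PalAt x i (j - i + n) := by
  obtain ⟨N, hN⟩ : ∃ N, j - i + n = N + 1 := ⟨j - i + n - 1, by omega⟩
  have h1 := h i N
  have h2 := h i (N + 1)
  have hfin1 : {p : List (ZMod 2) | p <:+: fac x i N ∧ p.reverse = p}.Finite := by
    apply Set.finite_of_ncard_ne_zero
    rw [h1]; omega
  obtain ⟨p, hp1, hp2⟩ : ∃ p ∈ {p : List (ZMod 2) | p <:+: fac x i (N + 1) ∧ p.reverse = p},
      p ∉ {p : List (ZMod 2) | p <:+: fac x i N ∧ p.reverse = p} := by
    by_contra hcon
    push Not at hcon
    have := Set.ncard_le_ncard (fun p hp => hcon p hp) hfin1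
    omega
  obtain ⟨hinf, hpal⟩ := hp1
  obtain ⟨k, m, hk1, hk2, rfl⟩ := infix_fac_iff.mp hinf
  have hkm : k + m = j + n := by
    by_contra hne
    exact hp2 ⟨infix_fac_iff.mpr ⟨k, m, hk1, by omega, rfl⟩, hpal⟩
  have hpalAt := palAt_iff.mp hpal
  by_cases hmn : m ≤ n
  · exfalso
    apply hp2
    refine ⟨?_, hpal⟩
    rcases cls_eq_iff.mp hcls with h3 | h3
    · rw [fac_eq_iff] at h3
      refine infix_fac_iff.mpr ⟨i + (n - m), m, by omega, by omega, ?_⟩
      rw [fac_eq_iff]
      intro t ht
      have := h3 (n - m + t) (by omega)
      rw [show k + t = j + (n - m + t) by omega, ← this]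
      congr 1
      omega
    · rw [fac_eq_reverse_iff] at h3
      refine infix_fac_iff.mpr ⟨i, m, by omega, by omega, ?_⟩
      rw [fac_eq_iff]
      intro t ht
      rw [h3 t (by omega), hpalAt t ht]
      congr 1
      omega
  · have hkj : fac x k n = (fac x j n).reverse := by
      rw [fac_eq_reverse_iff]
      intro t ht
      rw [hpalAt t (by omega)]
      congr 1
      omega
    have hki : k = i := by
      by_contra hne
      apply hbetween k (by omega) (by omega)
      rw [hkj, cls_reverse, hcls]
    subst hki
    rw [show j - k + n = m by omega]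
    exact hpalAt

/-- A word that contains `0010`, `0101`, `1011` and `0011` is not rich. -/
theorem not_rich {x : ℕ → ZMod 2} {a b c d : ℕ} (ha : fac x a 4 = [0, 0, 1, 0])
    (hb : fac x b 4 = [0, 1, 0, 1]) (hc : fac x c 4 = [1, 0, 1, 1])
    (hd : fac x d 4 = [0, 0, 1, 1]) : ¬ RRich x := by
  classical
  intro h
  set ε : ℕ → ZMod 2 := fun t =>
    if fac x t 4 = [0, 0, 1, 1] ∨ fac x t 4 = [1, 1, 0, 0] then 1 else 0 with hε
  have hεrev : ∀ s t, fac x s 4 = (fac x t 4).reverse → ε s = ε t := by
    intro s t hst
    have : (fac x s 4 = [0, 0, 1, 1] ∨ fac x s 4 = [1, 1, 0, 0]) ↔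
        (fac x t 4 = [0, 0, 1, 1] ∨ fac x t 4 = [1, 1, 0, 0]) := by
      rw [hst]
      constructor
      · rintro (h1 | h1)
        · right
          rw [List.reverse_eq_iff] at h1
          rw [h1]; rfl
        · left
          rw [List.reverse_eq_iff] at h1
          rw [h1]; rfl
      · rintro (h1 | h1)
        · right; rw [h1]; rfl
        · left; rw [h1]; rfl
    simp only [hε, this]
  have hcons : ∀ i j, i < j → cls (fac x i 3) = cls (fac x j 3) →
      (∀ k, i < k → k < j → cls (fac x k 3) ≠ cls (fac x i 3)) →
      ∑ t ∈ Finset.Ico i j, ε t = 0 := by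
    intro i j hij hcls hbet
    have hp := rich_return h hij hcls hbet
    have hrev : ∀ t, i ≤ t → t < j → fac x (i + j - 1 - t) 4 = (fac x t 4).reverse := by
      intro t ht1 ht2
      rw [fac_eq_reverse_iff]
      intro s hs
      have := hp (t + (4 - 1 - s) - i) (by omega)
      rw [show i + (t + (4 - 1 - s) - i) = t + (4 - 1 - s) by omega] at this
      rw [this]
      congr 1
      omega
    apply Finset.sum_involution (fun t _ => i + j - 1 - t)
    · intro t ht
      rw [Finset.mem_Ico] at ht
      rw [hεrev _ _ (hrev t ht.1 ht.2)]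
      exact z_add_self _
    · intro t ht hne heq
      rw [Finset.mem_Ico] at ht
      have h1 := hrev t ht.1 ht.2
      rw [heq] at h1
      apply hne
      simp only [hε]
      rw [if_neg]
      rintro (h2 | h2)
      · rw [h2] at h1
        exact absurd h1 (by decide)
      · rw [h2] at h1
        exact absurd h1 (by decide)
    · intro t ht
      rw [Finset.mem_Ico] at ht ⊢
      omega
    · intro t ht
      rw [Finset.mem_Ico] at ht
      omega
  have hgen : ∀ m i j, j - i = m → i ≤ j → cls (fac x i 3) = cls (fac x j 3) →
      ∑ t ∈ Finset.Ico i j, ε t = 0 := by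
    intro m
    induction m using Nat.strong_induction_on with
    | _ m ih =>
      intro i j hm hij hcls
      rcases Nat.eq_or_lt_of_le hij with h1 | h1
      · subst h1; simp
      · have hex : ∃ k, i < k ∧ k ≤ j ∧ cls (fac x k 3) = cls (fac x i 3) :=
          ⟨j, h1, le_rfl, hcls.symm⟩
        obtain ⟨hk1, hk2, hk3⟩ := Nat.find_spec hex
        set k := Nat.find hex with hk
        have hmin : ∀ l, i < l → l < k → cls (fac x l 3) ≠ cls (fac x i 3) := by
          intro l hl1 hl2 hl3
          exact Nat.find_min hex hl2 ⟨hl1, by omega, hl3⟩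
        have e1 := hcons i k hk1 hk3.symm hmin
        have e2 := ih (j - k) (by omega) k j rfl hk2 (hk3.trans hcls)
        rw [← Finset.sum_Ico_consecutive _ hk1.le hk2, e1, e2, add_zero]
  set τ : ℕ → ZMod 2 := fun n => ∑ t ∈ Finset.range n, ε t with hτ
  have hτeq : ∀ i j, i ≤ j → fac x i 3 = fac x j 3 → τ i = τ j := by
    intro i j hij hfac
    have := hgen (j - i) i j rfl hij (by rw [hfac])
    simp only [hτ]
    rw [← Finset.sum_range_add_sum_Ico _ hij, this, add_zero]
  have hτeq' : ∀ i j, fac x i 3 = fac x j 3 → τ i = τ j := by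
    intro i j hfac
    rcases le_total i j with h1 | h1
    · exact hτeq i j h1 hfac
    · exact (hτeq j i h1 hfac.symm).symm
  have hτs : ∀ i, τ (i + 1) = τ i + ε i := fun i => Finset.sum_range_succ _ _
  have pre : ∀ i (p q r s : ZMod 2), fac x i 4 = [p, q, r, s] → fac x i 3 = [p, q, r] ∧
      fac x (i + 1) 3 = [q, r, s] := by
    intro i p q r s hi
    constructor
    · rw [fac_succ] at hi
      have := List.append_inj' (s₂ := [p, q, r]) (t₂ := [s]) hi (by simp)
      exact this.1
    · rw [fac_cons] at hi
      exact (List.cons.inj hi).2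
  obtain ⟨a1, a2⟩ := pre a _ _ _ _ ha
  obtain ⟨b1, b2⟩ := pre b _ _ _ _ hb
  obtain ⟨c1, c2⟩ := pre c _ _ _ _ hc
  obtain ⟨d1, d2⟩ := pre d _ _ _ _ hd
  have ea : ε a = 0 := by simp only [hε]; rw [ha]; decide
  have eb : ε b = 0 := by simp only [hε]; rw [hb]; decide
  have ec : ε c = 0 := by simp only [hε]; rw [hc]; decide
  have ed : ε d = 1 := by simp only [hε]; rw [hd]; decide
  have f1 : τ d = τ a := hτeq' _ _ (by rw [d1, a1])
  have f2 : τ (a + 1) = τ b := hτeq' _ _ (by rw [a2, b1])
  have f3 : τ (b + 1) = τ c := hτeq' _ _ (by rw [b2, c1])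
  have f4 : τ (c + 1) = τ (d + 1) := hτeq' _ _ (by rw [c2, d2])
  rw [hτs, ea, add_zero] at f2
  rw [hτs, eb, add_zero] at f3
  rw [hτs, hτs, ec, ed, add_zero] at f4
  rw [f1, f2, f3] at f4
  have : ∀ z : ZMod 2, z ≠ z + 1 := by decide
  exact this _ f4

end Pool.Agent.H57.RW
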